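import Pool.Agent.Helper33.LIT.Frm

/-! LITERAL LABELS, part 6: facts about literal maximal labels (partitions `Z` of the space with `(Lab.ofZ Z).IsMaxf A`):
universality, monotonicity, events of extensions, numbers. -/

set_option autoImplicit false

namespace Pool.Agent.Helper33.LIT

open Finset Filter Topology Pool.Agent.Helper69.RK Pool.Agent.Helper31.EC Pool.Agent.Helper31.EC.Sp
open Pool.Agent.Helper40.EL Pool.Agent.Helper84.MT Pool.Agent.Helper36.AM

noncomputable section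

variable {S : Sp} {ι : Type}

/-! ### literal labels on extensions -/

/-- a partition of the space as a label on an extension -/
def onx {T : Sp} (p : Pj T S) (Z : ∀ k, Setoid (S.F k).Ω) : Lab S :=
  fun k => ⟨T.F k, p.fp k, p.hn k, Setoid.comap (p.π k) (Z k)⟩

/-- leaks of a label which is a partition of the space -/
theorem leak_lit {l : Lab S} {Z : ∀ k, Setoid (S.F k).Ω} {k : ℕ}
    (hV : (l k).V = Setoid.comap (l k).p.π (Z k)) (x : FL (S.F k)) : (l k).leak x = h (fc (Z k)) x := by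
  have h1 : (l k).v = (l k).p.map (fc (Z k)) := by
    show fc (l k).V = fc (Setoid.comap (l k).p.π (Z k))
    rw [hV]
  unfold FLab.leak
  rw [h1, I_eq, (l k).p.h_map, h_zero (((l k).p.map_le_top (fc (Z k))).trans le_sup_left), sub_zero]

theorem info_lit {l : Lab S} {Z : ∀ k, Setoid (S.F k).Ω} {k : ℕ}
    (hV : (l k).V = Setoid.comap (l k).p.π (Z k)) : (l k).info = H (fc (Z k)) := by
  have h1 : (l k).info = (l k).leak ⊥ := ((l k).leak_bot).symm
  rw [h1, leak_lit hV, h_bot]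

/-- two labels which are the same partition of the space -/
theorem max_lit {l l' : Lab S} {Z : ∀ k, Setoid (S.F k).Ω} (hV : ∀ k, (l k).V = Setoid.comap (l k).p.π (Z k))
    (hV' : ∀ k, (l' k).V = Setoid.comap (l' k).p.π (Z k)) {A : ι → Part S} (h : l.IsMaxf A) : l'.IsMaxf A := by
  refine ⟨fun i => ?_, fun m hm => ?_⟩
  · have h1 := h.1 i
    have e : (fun k => (l k).leak (A i k)) = fun k => (l' k).leak (A i k) := by
      funext k
      rw [leak_lit (hV k), leak_lit (hV' k)]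
    rw [e] at h1
    exact h1
  · have h1 := h.2 m hm
    have e : (fun k => (l k).info / (S.F k).n) = fun k => (l' k).info / (S.F k).n := by
      funext k
      rw [info_lit (hV k), info_lit (hV' k)]
    unfold Lab.info at h1 ⊢
    rw [e] at h1
    exact h1

/-- literal maximal labels are maximal ON EVERY EVENT OF EVERY EXTENSION -/
theorem max_im {A : ι → Part S} {Z : ∀ k, Setoid (S.F k).Ω} (h : (Lab.ofZ Z).IsMaxf A) {T : Sp} (p : Pj T S)
    (E : ∀ k, (T.F k).Ω → Prop) (hE : 0 < ul (T.pr E)) {i : ι} (hA : (A i).Bd)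
    (hA' : ∀ E : ∀ k, (T.F k).Ω → Prop, ((A i).im p E).Bd) :
    (Lab.ofZ (S := Sp.im p E) Z).IsMaxf (fun i => (A i).im p E) := by
  have h1 : (onx p Z).IsMaxf A := max_lit (fun k => rfl) (fun k => rfl) h
  have h2 := Lab.IsMaxf.im_max h1 E hE (i := i) hA (hA' _)
  exact max_lit (S := Sp.im p E) (l := (onx p Z).im E) (l' := Lab.ofZ (S := Sp.im p E) Z) (Z := Z) (fun k => rfl)
    (fun k => rfl) h2

/-- UNIVERSALITY: a label without leaks has no information about the space beyond the literal maximal label -/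
theorem univ_lit {A : ι → Part S} {Z : ∀ k, Setoid (S.F k).Ω} (h : (Lab.ofZ Z).IsMaxf A) {l' : Lab S}
    (h' : l'.DMf A) {i : ι} (hA : (A i).Bd) :
    Nul S (fun k => I (l' k).v (l' k).p.top ((l' k).p.map (fc (Z k)))) := by
  have h1 := h.univ h' hA
  have e : (fun k => I ((((Lab.ofZ Z) k).am (l' k)).p2.map (l' k).v) ((((Lab.ofZ Z) k).am (l' k)).p1.map
      ((Lab.ofZ Z) k).p.top) ((((Lab.ofZ Z) k).am (l' k)).p1.map ((Lab.ofZ Z) k).v)) =
      fun k => I (l' k).v (l' k).p.top ((l' k).p.map (fc (Z k))) := by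
    funext k
    have e1 : ((Lab.ofZ Z) k).v = ((Lab.ofZ Z) k).p.map (fc (Z k)) := rfl
    rw [FLab.am_top, e1, FLab.am_map]
    exact (((Lab.ofZ Z) k).am (l' k)).p2.I_map _ _ _
  rw [e] at h1
  exact h1

/-- a partition without leaks is known to the literal maximal label -/
theorem le_lit {A : ι → Part S} {Z Z' : ∀ k, Setoid (S.F k).Ω} (hm : (Lab.ofZ Z).IsMaxf A)
    (h' : ∀ i, PLe (fun k => fc (Z' k)) (A i)) {i : ι} (hA : (A i).Bd) :
    PLe (fun k => fc (Z' k)) (fun k => fc (Z k)) := by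
  have h1 := univ_lit hm ((Lab.ofZ_DMf Z').mpr h') hA
  have e : (fun k => I ((Lab.ofZ Z') k).v ((Lab.ofZ Z') k).p.top (((Lab.ofZ Z') k).p.map (fc (Z k)))) =
      fun k => h (fc (Z' k)) (fc (Z k)) := by
    funext k
    exact Lab.ofZ_leak Z' (fun k => fc (Z k)) k
  rw [e] at h1
  exact h1

/-! ### systems of leaves -/

variable {M : ℕ} {E : ℕ → ℕ}

/-- the point knows the literal box -/
theorem kap_pt {s : MSys S M E ι} {c : ℝ} {Z : ∀ k, Setoid (S.F k).Ω} (h : s.IsKap c (Lab.ofZ Z)) :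
    PLe (fun k => fc (Z k)) (pcd s.Q) := (Lab.ofZ_DMf Z).mp h.1 none

/-- the window `c` of every type knows the literal box -/
theorem kap_win {s : MSys S M E ι} {c : ℝ} {Z : ∀ k, Setoid (S.F k).Ω} (h : s.IsKap c (Lab.ofZ Z)) (i : ι) :
    PLe (fun k => fc (Z k)) ((s.lf i).win c) := (Lab.ofZ_DMf Z).mp h.1 (some i)

/-- literal boxes are monotone -/
theorem kap_mono {s : MSys S M E ι} {c c' : ℝ} (hc : c ≤ c') {Z Z' : ∀ k, Setoid (S.F k).Ω}
    (h : s.IsKap c (Lab.ofZ Z)) (h' : s.IsKap c' (Lab.ofZ Z')) :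
    PLe (fun k => fc (Z k)) (fun k => fc (Z' k)) := by
  have h1 : s.DMc c (Lab.ofZ Z) := h.1
  exact le_lit h' ((Lab.ofZ_DMf Z).mp (h1.mono hc)) (i := none) (pcd_Bd s.Q)

/-- (LAB): a partition which the point and all windows know is known to the box -/
theorem kap_lab {s : MSys S M E ι} {c : ℝ} {Z Z' : ∀ k, Setoid (S.F k).Ω} (h : s.IsKap c (Lab.ofZ Z))
    (h0 : PLe (fun k => fc (Z' k)) (pcd s.Q)) (h1 : ∀ i, PLe (fun k => fc (Z' k)) ((s.lf i).win c)) :
    PLe (fun k => fc (Z' k)) (fun k => fc (Z k)) := by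
  refine le_lit h (fun i => ?_) (i := none) (pcd_Bd s.Q)
  rcases i with _ | i
  · exact h0
  · exact h1 i

/-- (NLK): a label without leaks has no information beyond the box -/
theorem kap_univ {s : MSys S M E ι} {c : ℝ} {Z : ∀ k, Setoid (S.F k).Ω} (h : s.IsKap c (Lab.ofZ Z)) {l' : Lab S}
    (h' : s.DMc c l') : Nul S (fun k => I (l' k).v (l' k).p.top ((l' k).p.map (fc (Z k)))) :=
  univ_lit h h' (i := none) (pcd_Bd s.Q)

/-- the literal box is the box ON EVERY EVENT OF EVERY EXTENSION -/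
theorem kap_im {s : MSys S M E ι} {c : ℝ} {Z : ∀ k, Setoid (S.F k).Ω} (h : s.IsKap c (Lab.ofZ Z)) {T : Sp}
    (p : Pj T S) (A : ∀ k, (T.F k).Ω → Prop) (hA : 0 < ul (T.pr A)) :
    (s.im p A hA).IsKap c (Lab.ofZ (S := Sp.im p A) Z) := by
  unfold MSys.IsKap
  rw [MSys.cnd_im]
  exact max_im h p A hA (i := none) (pcd_Bd s.Q) (fun _ => pcd_im_Bd p _ s.Q)

/-- numbers of a homogeneous class over the literal boxes -/
theorem hom_num {M : ℕ} {Cl : MCl (M + 1)} {g r : ℕ} {w : Fin (M + 1) → ℝ} {ρ : ℝ}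
    {TT : ∀ S : Sp, MSys S (M + 1) (lin g) (Fin r) → Prop} (hT : Hom M Cl g r w ρ TT) {S : Sp}
    {s : MSys S (M + 1) (lin g) (Fin r)} (hs : TT S s) {c b a : ℝ} (h0 : 0 ≤ c) (h01 : w (Fin.last M) * c < 1)
    (h1 : w (Fin.last M) * c ≤ b) (h2 : b ≤ a) (h3 : a ≤ 1) {Z : ∀ k, Setoid (S.F k).Ω} (hZ : s.IsKap c (Lab.ofZ Z)) :
    Tendsto (fun k => h (cel2 s.Q (Fin.last M) a b k) (fc (Z k)) / (S.F k).n) UF
      (𝓝 (∑ j : Fin M, (a - w j.castSucc * c) + (1 - ρ) * (b - w (Fin.last M) * c))) := by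
  have h4 := hT.num S s hs c b a h0 h01 h1 h2 h3 _ hZ
  refine h4.congr fun k => ?_
  have h5 : h (((Lab.ofZ Z) k).p.map (cel2 s.Q (Fin.last M) a b k)) ((Lab.ofZ Z) k).v =
      h (((Lab.ofZ Z) k).p.map (cel2 s.Q (Fin.last M) a b k)) (((Lab.ofZ Z) k).p.map (fc (Z k))) := rfl
  rw [h5, FPj.h_map]

/-- the same at the window 0, without a label -/
theorem hom_num0 {M : ℕ} {Cl : MCl (M + 1)} {g r : ℕ} {w : Fin (M + 1) → ℝ} {ρ : ℝ}
    {TT : ∀ S : Sp, MSys S (M + 1) (lin g) (Fin r) → Prop} (hT : Hom M Cl g r w ρ TT) {S : Sp}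
    {s : MSys S (M + 1) (lin g) (Fin r)} (hs : TT S s) {b a : ℝ} (h1 : 0 ≤ b) (h2 : b ≤ a) (h3 : a ≤ 1) :
    Tendsto (fun k => H (cel2 s.Q (Fin.last M) a b k) / (S.F k).n) UF (𝓝 (M * a + (1 - ρ) * b)) := by
  have h4 := hom_num hT hs (c := 0) le_rfl (by rw [mul_zero]; exact zero_lt_one) (by rw [mul_zero]; exact h1) h2 h3
    (kap_top (hT.con S s hs))
  have e : (∑ j : Fin M, (a - w j.castSucc * 0) + (1 - ρ) * (b - w (Fin.last M) * 0)) = M * a + (1 - ρ) * b := by
    simp only [mul_zero, sub_zero, Finset.sum_const, Finset.card_univ, Fintype.card_fin, nsmul_eq_mul]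
  rw [e] at h4
  refine h4.congr fun k => ?_
  have h5 : (fc (⊤ : Setoid (S.F k).Ω) : FL (S.F k)) = ⊥ := fc_top
  rw [h5, h_bot]

end

end Pool.Agent.Helper33.LIT
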