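import Pool.Agent.Helper33.LIT.Ord
import Pool.Agent.Helper76.RL.Gb

/-! LITERAL LABELS, part 2: a kernel is sampled with common randomness; all receivers need few bits. -/

set_option autoImplicit false

namespace Pool.Agent.Helper33.LIT

open Finset Pool.Agent.Helper69.RK Pool.Agent.Helper31.EC Pool.Agent.Helper76.RL

noncomputable section

variable {V : Type} [Fintype V] [DecidableEq V]

/-- the points below the graph of `L p` -/
def stc (L : ℕ) (p : V → ℝ) : Finset (V × Fin L) := univ.filter fun l => (l.2 : ℕ) < ⌈(L : ℝ) * p l.1⌉₊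

theorem card_col (L m : ℕ) : (univ.filter fun u : Fin L => (u : ℕ) < m).card = min L m := by
  have h1 : ((univ.filter fun u : Fin L => (u : ℕ) < m).map Fin.valEmbedding) = Finset.range (min L m) := by
    ext x
    simp only [mem_map, mem_filter, mem_univ, true_and, Fin.valEmbedding_apply, mem_range]
    constructor
    · rintro ⟨u, h, rfl⟩
      have := u.isLt
      omega
    · intro h
      exact ⟨⟨x, by omega⟩, by simp only; omega, rfl⟩
  rw [← Finset.card_map, h1, Finset.card_range]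

omit [DecidableEq V] in
theorem sum_stc_le (L : ℕ) (p : V → ℝ) (φ : V → ℝ) :
    ∑ l ∈ stc L p, φ l.1 = ∑ v, (min L ⌈(L : ℝ) * p v⌉₊ : ℕ) * φ v := by
  unfold stc
  rw [Finset.sum_filter, Fintype.sum_prod_type]
  refine Finset.sum_congr rfl fun v _ => ?_
  rw [← Finset.sum_filter]
  have h1 : ∑ a with ((v, a).2 : Fin L).val < ⌈(L : ℝ) * p (v, a).1⌉₊, φ (v, a).1 =
      ∑ _a ∈ univ.filter (fun u : Fin L => (u : ℕ) < ⌈(L : ℝ) * p v⌉₊), φ v := rfl
  rw [h1, Finset.sum_const, card_col, nsmul_eq_mul]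

omit [DecidableEq V] in
theorem card_stc (L : ℕ) (p : V → ℝ) : ((stc L p).card : ℝ) = ∑ v, ((min L ⌈(L : ℝ) * p v⌉₊ : ℕ) : ℝ) := by
  have h1 := sum_stc_le L p (fun _ => 1)
  simp only [mul_one, Finset.sum_const, nsmul_eq_mul] at h1
  exact h1

omit [DecidableEq V] in
theorem card_stc_le (L : ℕ) (p : V → ℝ) (h0 : ∀ v, 0 ≤ p v) : ((stc L p).card : ℝ) ≤ L * (∑ v, p v) + Fintype.card V := by
  rw [card_stc]
  have h1 : ∀ v ∈ (univ : Finset V), ((min L ⌈(L : ℝ) * p v⌉₊ : ℕ) : ℝ) ≤ L * p v + 1 := by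
    intro v _
    have h2 : ((min L ⌈(L : ℝ) * p v⌉₊ : ℕ) : ℝ) ≤ (⌈(L : ℝ) * p v⌉₊ : ℝ) := by exact_mod_cast min_le_right _ _
    have h3 := (Nat.ceil_lt_add_one (mul_nonneg (Nat.cast_nonneg L) (h0 v))).le
    linarith
  refine (Finset.sum_le_sum h1).trans (le_of_eq ?_)
  rw [Finset.sum_add_distrib, ← Finset.mul_sum]
  simp

omit [Fintype V] [DecidableEq V] in
theorem min_ceil {L : ℕ} {p : V → ℝ} (h1 : ∀ v, p v ≤ 1) (v : V) : min L ⌈(L : ℝ) * p v⌉₊ = ⌈(L : ℝ) * p v⌉₊ := by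
  apply min_eq_right
  rw [Nat.ceil_le]
  have := h1 v
  have hL : (0 : ℝ) ≤ L := Nat.cast_nonneg L
  nlinarith

omit [DecidableEq V] in
theorem card_stc_ge {L : ℕ} {p : V → ℝ} (h1 : ∀ v, p v ≤ 1) (hp : ∑ v, p v = 1) : (L : ℝ) ≤ (stc L p).card := by
  rw [card_stc]
  have h2 : (L : ℝ) = ∑ v, (L : ℝ) * p v := by rw [← Finset.mul_sum, hp, mul_one]
  rw [h2]
  refine Finset.sum_le_sum fun v _ => ?_
  rw [← h2, min_ceil h1]
  exact Nat.le_ceil _

theorem logb_le_two_mul {t : ℝ} (ht : 0 < t) : Real.logb 2 t ≤ 2 * t := by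
  unfold Real.logb
  have h1 := Real.log_le_sub_one_of_pos ht
  have h2 := Real.log_two_gt_d9
  have h3 : (0 : ℝ) < Real.log 2 := by linarith
  rw [div_le_iff₀ h3]
  nlinarith

/-- the code of a receiver with the law `q` -/
def code {L : ℕ} (N : ℕ) (π : Ord (V × Fin L)) (q : V → ℝ) (v : V) : ℝ :=
  ∑ K ∈ range N, (1 / 2 : ℝ) ^ (K + 1) * ∑ l ∈ (stc L fun v => 2 ^ K * q v) with l.1 = v,
    1 / ((rk π (stc L fun v => 2 ^ K * q v) l : ℝ) * (rk π (stc L fun v => 2 ^ K * q v) l + 1))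

theorem code_nonneg {L : ℕ} (N : ℕ) (π : Ord (V × Fin L)) (q : V → ℝ) (v : V) : 0 ≤ code N π q v := by
  unfold code
  apply Finset.sum_nonneg
  intro K _
  apply mul_nonneg (by positivity)
  apply Finset.sum_nonneg
  intro l _
  positivity

theorem code_sum {L : ℕ} (N : ℕ) (π : Ord (V × Fin L)) (q : V → ℝ) (S : Finset V) : ∑ v ∈ S, code N π q v ≤ 1 := by
  have h1 : ∑ v ∈ S, code N π q v ≤ ∑ v, code N π q v :=
    Finset.sum_le_sum_of_subset_of_nonneg (Finset.subset_univ S) (fun v _ _ => code_nonneg N π q v)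
  refine h1.trans ?_
  unfold code
  rw [Finset.sum_comm]
  have h2 : ∀ K ∈ range N, ∑ v, (1 / 2 : ℝ) ^ (K + 1) * ∑ l ∈ (stc L fun v => 2 ^ K * q v) with l.1 = v,
      1 / ((rk π (stc L fun v => 2 ^ K * q v) l : ℝ) * (rk π (stc L fun v => 2 ^ K * q v) l + 1)) ≤
      (1 / 2 : ℝ) ^ (K + 1) := by
    intro K _
    rw [← Finset.mul_sum, Finset.sum_fiberwise]
    have h3 := sum_rk_le π (stc L fun v => 2 ^ K * q v)
    have h4 : (0 : ℝ) ≤ (1 / 2 : ℝ) ^ (K + 1) := by positivity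
    nlinarith
  refine (Finset.sum_le_sum h2).trans ?_
  have h3 : ∀ M : ℕ, ∑ K ∈ range M, (1 / 2 : ℝ) ^ (K + 1) = 1 - (1 / 2) ^ M := by
    intro M
    induction M with
    | zero => simp
    | succ M ih =>
      rw [Finset.sum_range_succ, ih]
      ring
  rw [h3]
  have : (0 : ℝ) ≤ (1 / 2) ^ N := by positivity
  linarith

/-- bits needed for the element `a` of the level `K` -/
theorem code_log {L N K : ℕ} (hK : K < N) {π : Ord (V × Fin L)} {q : V → ℝ} {a : V × Fin L}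
    (ha : a ∈ stc L fun v => 2 ^ K * q v) : 0 < code N π q a.1 ∧ -Real.logb 2 (code N π q a.1) ≤
      3 * K + 6 + 2 / Real.log 2 * ((rk π (stc L fun v => 2 ^ K * q v) a : ℝ) / 2 ^ (K + 2) - 1) := by
  set H := stc L fun v => 2 ^ K * q v with hH
  set r : ℝ := (rk π H a : ℝ) with hr
  have hr1 : 1 ≤ r := by
    have := rk_pos (π := π) ha
    rw [hr]
    exact_mod_cast this
  have h1 : (1 / 2 : ℝ) ^ (K + 1) * (1 / (r * (r + 1))) ≤ code N π q a.1 := by
    unfold code
    have h2 : (1 / 2 : ℝ) ^ (K + 1) * ∑ l ∈ H with l.1 = a.1, 1 / ((rk π H l : ℝ) * (rk π H l + 1)) ≤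
        ∑ K ∈ range N, (1 / 2 : ℝ) ^ (K + 1) * ∑ l ∈ (stc L fun v => 2 ^ K * q v) with l.1 = a.1,
    1 / ((rk π (stc L fun v => 2 ^ K * q v) l : ℝ) * (rk π (stc L fun v => 2 ^ K * q v) l + 1)) := by
      apply Finset.single_le_sum (f := fun K => (1 / 2 : ℝ) ^ (K + 1) *
        ∑ l ∈ (stc L fun v => 2 ^ K * q v) with l.1 = a.1,
        1 / ((rk π (stc L fun v => 2 ^ K * q v) l : ℝ) * (rk π (stc L fun v => 2 ^ K * q v) l + 1)))
      · intro i _
        apply mul_nonneg (by positivity)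
        apply Finset.sum_nonneg
        intro l _
        positivity
      · exact Finset.mem_range.mpr hK
    refine le_trans ?_ h2
    apply mul_le_mul_of_nonneg_left _ (by positivity)
    apply Finset.single_le_sum (f := fun l => 1 / ((rk π H l : ℝ) * (rk π H l + 1)))
    · intro l _
      positivity
    · rw [Finset.mem_filter]
      exact ⟨ha, rfl⟩
  have h2 : (0 : ℝ) < (1 / 2 : ℝ) ^ (K + 1) * (1 / (r * (r + 1))) := by positivity
  refine ⟨lt_of_lt_of_le h2 h1, ?_⟩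
  have h3 : Real.logb 2 ((1 / 2 : ℝ) ^ (K + 1) * (1 / (r * (r + 1)))) ≤ Real.logb 2 (code N π q a.1) :=
    Real.logb_le_logb_of_le (by norm_num) h2 h1
  have hr0 : (0 : ℝ) < r := by linarith
  have h4 : Real.logb 2 ((1 / 2 : ℝ) ^ (K + 1) * (1 / (r * (r + 1)))) =
      -((K : ℝ) + 1) - (Real.logb 2 r + Real.logb 2 (r + 1)) := by
    rw [Real.logb_mul (by positivity) (by positivity), one_div_pow, one_div, Real.logb_inv, Real.logb_pow,
      one_div, Real.logb_inv, Real.logb_mul (by positivity) (by positivity),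
      Real.logb_self_eq_one (by norm_num)]
    push_cast
    ring
  have h5 : Real.logb 2 (r + 1) ≤ 1 + Real.logb 2 r := by
    have : Real.logb 2 (r + 1) ≤ Real.logb 2 (2 * r) :=
      Real.logb_le_logb_of_le (by norm_num) (by positivity) (by linarith)
    rw [Real.logb_mul (by norm_num) (by positivity), Real.logb_self_eq_one (by norm_num)] at this
    exact this
  have h6 : Real.logb 2 r ≤ (K : ℝ) + 2 + (r / 2 ^ (K + 2) - 1) / Real.log 2 := by
    have h7 : r = 2 ^ (K + 2) * (r / 2 ^ (K + 2)) := by field_simp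
    have h8 : Real.logb 2 r = (K : ℝ) + 2 + Real.logb 2 (r / 2 ^ (K + 2)) := by
      conv_lhs => rw [h7]
      rw [Real.logb_mul (by positivity) (by positivity), Real.logb_pow, Real.logb_self_eq_one (by norm_num)]
      push_cast
      ring
    rw [h8]
    have h9 : Real.logb 2 (r / 2 ^ (K + 2)) ≤ (r / 2 ^ (K + 2) - 1) / Real.log 2 := by
      unfold Real.logb
      exact div_le_div_of_nonneg_right (Real.log_le_sub_one_of_pos (by positivity)) (Real.log_pos (by norm_num)).le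
    linarith
  rw [h4] at h3
  have h10 : 2 / Real.log 2 * (r / 2 ^ (K + 2) - 1) = 2 * ((r / 2 ^ (K + 2) - 1) / Real.log 2) := by ring
  rw [h10]
  linarith

/-- the level of `v` -/
def lvl (p q : ℝ) : ℕ := ⌈Real.logb 2 (p / q)⌉₊

theorem lvl_spec {p q : ℝ} (hp : 0 < p) (hq : 0 < q) : p ≤ 2 ^ lvl p q * q := by
  have h1 : Real.logb 2 (p / q) ≤ (lvl p q : ℝ) := Nat.le_ceil _
  rw [Real.logb_le_iff_le_rpow (by norm_num) (by positivity), div_le_iff₀ hq, Real.rpow_natCast] at h1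
  exact h1

theorem lvl_le {p q : ℝ} (hp : 0 < p) (hq : 0 < q) :
    p * (lvl p q : ℝ) ≤ p * (Real.logb 2 p - Real.logb 2 q) + 2 * q + p := by
  have h1 : Real.logb 2 (p / q) = Real.logb 2 p - Real.logb 2 q := Real.logb_div hp.ne' hq.ne'
  rcases le_or_gt 0 (Real.logb 2 (p / q)) with h | h
  · have h2 := (Nat.ceil_lt_add_one h).le
    have h3 : (lvl p q : ℝ) ≤ Real.logb 2 (p / q) + 1 := h2
    rw [h1] at h3
    nlinarith
  · have h2 : lvl p q = 0 := Nat.ceil_eq_zero.mpr h.le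
    rw [h2]
    have h3 := logb_le_two_mul (t := q / p) (by positivity)
    have h4 : Real.logb 2 (q / p) = Real.logb 2 q - Real.logb 2 p := Real.logb_div hq.ne' hp.ne'
    rw [h4] at h3
    have h5 : p * (Real.logb 2 q - Real.logb 2 p) ≤ p * (2 * (q / p)) := mul_le_mul_of_nonneg_left h3 hp.le
    have h6 : p * (2 * (q / p)) = 2 * q := by field_simp
    push_cast
    nlinarith

/-- hypotheses on one kernel row -/
structure Row (L : ℕ) (p : V → ℝ) : Prop where
  nn : ∀ v, 0 ≤ p v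
  one : ∑ v, p v = 1
  big : ∀ v, p v ≠ 0 → 1 ≤ (L : ℝ) * p v
  card : Fintype.card V ≤ L

omit [DecidableEq V] in
theorem Row.le_one {L : ℕ} {p : V → ℝ} (h : Row L p) (v : V) : p v ≤ 1 := by
  rw [← h.one]
  exact Finset.single_le_sum (fun v _ => h.nn v) (mem_univ v)

omit [DecidableEq V] in
theorem Row.pos {L : ℕ} {p : V → ℝ} (h : Row L p) : 0 < L := by
  have h1 : (univ : Finset V).Nonempty := by
    by_contra hc
    rw [Finset.not_nonempty_iff_eq_empty] at hc
    have := h.one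
    rw [hc, Finset.sum_empty] at this
    exact zero_ne_one this
  have h2 : 0 < Fintype.card V := Finset.card_pos.mpr h1
  exact lt_of_lt_of_le h2 h.card

omit [DecidableEq V] in
theorem Row.card_pos {L : ℕ} {p : V → ℝ} (h : Row L p) : 0 < (stc L p).card := by
  have h1 := card_stc_ge h.le_one h.one (L := L)
  have h2 : (0 : ℝ) < L := by exact_mod_cast h.pos
  exact_mod_cast lt_of_lt_of_le h2 h1

omit [DecidableEq V] in
theorem Row.ne {L : ℕ} {p : V → ℝ} (h : Row L p) : (stc L p).Nonempty := Finset.card_pos.mp h.card_pos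

omit [DecidableEq V] in
/-- the points below the graph have positive weight -/
theorem Row.mem {L : ℕ} {p : V → ℝ} (_ : Row L p) {a : V × Fin L} (ha : a ∈ stc L p) : p a.1 ≠ 0 := by
  intro h0
  unfold stc at ha
  rw [Finset.mem_filter, h0, mul_zero, Nat.ceil_zero] at ha
  exact Nat.not_lt_zero _ ha.2

omit [DecidableEq V] in
/-- averages over the first element -/
theorem Row.avg {L : ℕ} {p : V → ℝ} (h : Row L p) {ψ : V → ℝ} (hψ : ∀ v, 0 ≤ ψ v) :
    ∑ a ∈ stc L p, ψ a.1 / (stc L p).card ≤ 2 * ∑ v, p v * ψ v := by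
  have h0 := h.card_pos
  have hG : (0 : ℝ) < (stc L p).card := by exact_mod_cast h0
  have hL : (0 : ℝ) < L := by exact_mod_cast h.pos
  have hge := card_stc_ge h.le_one h.one (L := L)
  have h1 : ∑ a ∈ stc L p, ψ a.1 / (stc L p).card = (∑ a ∈ stc L p, ψ a.1) / (stc L p).card := by
    rw [Finset.sum_div]
  rw [h1, sum_stc_le, div_le_iff₀ hG]
  have h2 : ∀ v ∈ (univ : Finset V), ((min L ⌈(L : ℝ) * p v⌉₊ : ℕ) : ℝ) * ψ v ≤ 2 * (L * (p v * ψ v)) := by
    intro v _
    rw [min_ceil h.le_one]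
    by_cases hv : p v = 0
    · rw [hv, mul_zero, Nat.ceil_zero]; simp
    · have h3 := (Nat.ceil_lt_add_one (mul_nonneg hL.le (h.nn v))).le
      have h4 := h.big v hv
      have h5 : (⌈(L : ℝ) * p v⌉₊ : ℝ) ≤ 2 * (L * p v) := by linarith
      have := mul_le_mul_of_nonneg_right h5 (hψ v)
      calc (⌈(L : ℝ) * p v⌉₊ : ℝ) * ψ v ≤ 2 * (L * p v) * ψ v := this
        _ = 2 * (L * (p v * ψ v)) := by ring
  refine (Finset.sum_le_sum h2).trans ?_
  rw [← Finset.mul_sum, ← Finset.mul_sum]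
  have h6 : 0 ≤ ∑ v, p v * ψ v := Finset.sum_nonneg fun v _ => mul_nonneg (h.nn v) (hψ v)
  nlinarith

open Classical in
/-- ONE POINT, ONE RECEIVER -/
theorem Row.bits {L : ℕ} {p : V → ℝ} (h : Row L p) {q : V → ℝ} (hq0 : ∀ v, 0 ≤ q v) (hq1 : ∑ v, q v ≤ 1)
    (hpq : ∀ v, p v ≠ 0 → 0 < q v) {N : ℕ} (hN : ∀ v, p v ≠ 0 → lvl (p v) (q v) < N) :
    av (fun π => -Real.logb 2 (code N π q (fst π (stc L p) h.ne).1)) ≤
      6 * ∑ v, p v * (Real.logb 2 (p v) - Real.logb 2 (q v)) + 30 := by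
  set G := stc L p with hG
  have hGc : (0 : ℝ) < G.card := by exact_mod_cast h.card_pos
  have hL : (0 : ℝ) < L := by exact_mod_cast h.pos
  have hge : (L : ℝ) ≤ G.card := card_stc_ge h.le_one h.one
  have hln : (0 : ℝ) < Real.log 2 := Real.log_pos (by norm_num)
  rw [av_split h.ne (fun π a => -Real.logb 2 (code N π q a.1))]
  have h1 : ∀ a ∈ G, av (fun π : Ord (V × Fin L) => if Fst π G a then -Real.logb 2 (code N π q a.1) else 0) ≤
      (3 * (lvl (p a.1) (q a.1) : ℝ) + 6) / G.card := by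
    intro a ha
    have hpa := h.mem ha
    have hp0 : 0 < p a.1 := lt_of_le_of_ne (h.nn _) (Ne.symm hpa)
    have hq := hpq _ hpa
    set K := lvl (p a.1) (q a.1) with hK
    set Hs := stc L (fun v => 2 ^ K * q v) with hHs
    have haH : a ∈ Hs := by
      rw [hHs]
      unfold stc
      rw [hG] at ha
      unfold stc at ha
      rw [Finset.mem_filter] at ha ⊢
      refine ⟨mem_univ _, lt_of_lt_of_le ha.2 ?_⟩
      apply Nat.ceil_mono
      exact mul_le_mul_of_nonneg_left (lvl_spec hp0 hq) hL.le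
    have hHc : (Hs.card : ℝ) ≤ 2 ^ (K + 1) * L := by
      have h2 := card_stc_le L (fun v => 2 ^ K * q v) (fun v => mul_nonneg (by positivity) (hq0 v))
      have h3 : ∑ v, 2 ^ K * q v ≤ 2 ^ K := by
        rw [← Finset.mul_sum]
        have : (0 : ℝ) < 2 ^ K := by positivity
        nlinarith
      have h4 : (Fintype.card V : ℝ) ≤ L := by exact_mod_cast h.card
      have h5 : (L : ℝ) * ∑ v, 2 ^ K * q v ≤ L * 2 ^ K := mul_le_mul_of_nonneg_left h3 hL.le
      have h6 : (1 : ℝ) ≤ 2 ^ K := one_le_pow₀ (by norm_num)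
      have h7 : (2 : ℝ) ^ (K + 1) = 2 * 2 ^ K := by ring
      rw [h7]
      nlinarith
    have h2 : ∀ π : Ord (V × Fin L), (if Fst π G a then -Real.logb 2 (code N π q a.1) else 0) ≤
        (3 * (K : ℝ) + 6 - 2 / Real.log 2) * (if Fst π G a then (1 : ℝ) else 0) +
          (2 / Real.log 2 / 2 ^ (K + 2)) * (if Fst π G a then (rk π Hs a : ℝ) else 0) := by
      intro π
      by_cases hf : Fst π G a
      · rw [if_pos hf, if_pos hf, if_pos hf, mul_one]
        have h3 := (code_log (hN _ hpa) (π := π) haH).2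
        refine h3.trans (le_of_eq ?_)
        field_simp
        ring
      · rw [if_neg hf, if_neg hf, if_neg hf, mul_zero, mul_zero, add_zero]
    refine (av_mono h2).trans ?_
    rw [av_add, av_mul, av_mul, av_fst ha]
    have h3 := av_rk (H := Hs) ha
    have h4 : (1 / (G.card : ℝ)) * (1 + Hs.card / G.card) ≤ (1 / G.card) * 2 ^ (K + 2) := by
      apply mul_le_mul_of_nonneg_left _ (by positivity)
      have h5 : (Hs.card : ℝ) / G.card ≤ 2 ^ (K + 1) := by
        rw [div_le_iff₀ hGc]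
        exact hHc.trans (mul_le_mul_of_nonneg_left hge (by positivity))
      have h6 : (1 : ℝ) ≤ 2 ^ (K + 1) := one_le_pow₀ (by norm_num)
      have h7 : (2 : ℝ) ^ (K + 2) = 2 * 2 ^ (K + 1) := by ring
      rw [h7]
      linarith
    have h5 : (2 / Real.log 2 / 2 ^ (K + 2)) * av (fun π : Ord (V × Fin L) => if Fst π G a then (rk π Hs a : ℝ) else 0) ≤
        (2 / Real.log 2) * (1 / G.card) := by
      have h6 : (2 / Real.log 2 / 2 ^ (K + 2)) * ((1 / (G.card : ℝ)) * 2 ^ (K + 2)) = (2 / Real.log 2) * (1 / G.card) := by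
        field_simp
      rw [← h6]
      exact mul_le_mul_of_nonneg_left (h3.trans h4) (by positivity)
    have h6 : (3 * (K : ℝ) + 6) / G.card = (3 * (K : ℝ) + 6 - 2 / Real.log 2) * (1 / G.card) +
        (2 / Real.log 2) * (1 / G.card) := by ring
    rw [h6]
    linarith
  refine (Finset.sum_le_sum h1).trans ?_
  refine (h.avg (ψ := fun v => 3 * (lvl (p v) (q v) : ℝ) + 6) (fun v => by positivity)).trans ?_
  have h2 : ∀ v ∈ (univ : Finset V), p v * (3 * (lvl (p v) (q v) : ℝ) + 6) ≤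
      3 * (p v * (Real.logb 2 (p v) - Real.logb 2 (q v))) + 6 * q v + 9 * p v := by
    intro v _
    by_cases hv : p v = 0
    · rw [hv, zero_mul, zero_mul, mul_zero, mul_zero, add_zero, zero_add]
      have := hq0 v
      linarith
    · have h3 := lvl_le (lt_of_le_of_ne (h.nn v) (Ne.symm hv)) (hpq v hv)
      linarith
  have h3 := Finset.sum_le_sum h2
  rw [Finset.sum_add_distrib, Finset.sum_add_distrib, ← Finset.mul_sum, ← Finset.mul_sum, ← Finset.mul_sum,
    h.one] at h3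
  linarith

/-! ### the finite theorem -/

/-- COMMON RANDOMNESS: a kernel `P` can be replaced by a function `w` such that every receiver `j`, who knows `g j`,
needs for `w` not more than 6 times the bits for `P` plus 30 -/
theorem lit_fin {Ω J : Type} {γ : J → Type} [Fintype Ω] [Fintype J] (μ : Ω → ℝ) (hμ : ∀ x, 0 ≤ μ x)
    (hμ1 : ∑ x, μ x = 1) (P : Ω → V → ℝ) (hP0 : ∀ x v, 0 ≤ P x v) (hP1 : ∀ x, ∑ v, P x v = 1)
    (g : ∀ j, Ω → γ j) (Q : ∀ j, γ j → V → ℝ) (hQ0 : ∀ j c v, 0 ≤ Q j c v) (hQ1 : ∀ j c, ∑ v, Q j c v ≤ 1)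
    (hPQ : ∀ j x v, μ x ≠ 0 → P x v ≠ 0 → 0 < Q j (g j x) v) (ψ : Ω → V → ℝ) (hψ : ∀ x v, 0 ≤ ψ x v) :
    ∃ w : Ω → V, (∀ x, P x (w x) ≠ 0) ∧ ∑ j, CH μ w (g j) + ∑ x, μ x * ψ x (w x) ≤
      ∑ j, (6 * ∑ x, μ x * ∑ v, P x v * (Real.logb 2 (P x v) - Real.logb 2 (Q j (g j x) v)) + 30) +
        2 * ∑ x, μ x * ∑ v, P x v * ψ x v := by
  classical
  obtain ⟨L, hL⟩ := exists_nat_ge (∑ x, ∑ v, (P x v)⁻¹ + (Fintype.card V : ℝ))
  have hs0 : ∀ x, 0 ≤ ∑ v, (P x v)⁻¹ := fun x => Finset.sum_nonneg fun v _ => inv_nonneg.mpr (hP0 x v)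
  have hrow : ∀ x, Row L (P x) := by
    intro x
    refine ⟨hP0 x, hP1 x, fun v hv => ?_, ?_⟩
    · have h1 : (P x v)⁻¹ ≤ ∑ v, (P x v)⁻¹ :=
        Finset.single_le_sum (f := fun v => (P x v)⁻¹) (fun v _ => inv_nonneg.mpr (hP0 x v)) (mem_univ v)
      have h2 : ∑ v, (P x v)⁻¹ ≤ ∑ x, ∑ v, (P x v)⁻¹ :=
        Finset.single_le_sum (f := fun x => ∑ v, (P x v)⁻¹) (fun x _ => hs0 x) (mem_univ x)
      have h3 : (0 : ℝ) ≤ Fintype.card V := Nat.cast_nonneg _
      have h4 : (P x v)⁻¹ ≤ L := by linarith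
      have h5 : 0 < P x v := lt_of_le_of_ne (hP0 x v) (Ne.symm hv)
      rw [inv_le_iff_one_le_mul₀ h5] at h4
      exact h4
    · have h2 : 0 ≤ ∑ x, ∑ v, (P x v)⁻¹ := Finset.sum_nonneg fun x _ => hs0 x
      have h3 : (Fintype.card V : ℝ) ≤ L := by linarith
      exact_mod_cast h3
  set N : ℕ := (∑ j, ∑ x, ∑ v, lvl (P x v) (Q j (g j x) v)) + 1 with hN
  have hNl : ∀ j x v, lvl (P x v) (Q j (g j x) v) < N := by
    intro j x v
    rw [hN, Nat.lt_succ_iff]
    calc lvl (P x v) (Q j (g j x) v) ≤ ∑ v, lvl (P x v) (Q j (g j x) v) :=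
          Finset.single_le_sum (f := fun v => lvl (P x v) (Q j (g j x) v)) (fun _ _ => Nat.zero_le _) (mem_univ v)
      _ ≤ ∑ x, ∑ v, lvl (P x v) (Q j (g j x) v) :=
          Finset.single_le_sum (f := fun x => ∑ v, lvl (P x v) (Q j (g j x) v)) (fun _ _ => Nat.zero_le _) (mem_univ x)
      _ ≤ _ := Finset.single_le_sum (f := fun j => ∑ x, ∑ v, lvl (P x v) (Q j (g j x) v)) (fun _ _ => Nat.zero_le _)
          (mem_univ j)
  set w : Ord (V × Fin L) → Ω → V := fun π x => (fst π (stc L (P x)) (hrow x).ne).1 with hw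
  have hsupp : ∀ π x, P x (w π x) ≠ 0 := fun π x => (hrow x).mem (fst_spec π _ _).1
  set T : Ord (V × Fin L) → ℝ := fun π => ∑ j, ∑ x, μ x * (-Real.logb 2 (code N π (Q j (g j x)) (w π x))) +
    ∑ x, μ x * ψ x (w π x) with hT
  obtain ⟨π, hπ⟩ := exists_le_av T
  refine ⟨w π, hsupp π, ?_⟩
  have h1 : ∀ j ∈ (univ : Finset J), CH μ (w π) (g j) ≤ ∑ x, μ x * (-Real.logb 2 (code N π (Q j (g j x)) (w π x))) := by
    intro j _
    refine (gibbs_CH μ (w π) (g j) hμ (fun c v => code N π (Q j c) v) (fun c v => code_nonneg _ _ _ _)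
      (fun c S => code_sum _ _ _ _) ?_).trans (le_of_eq ?_)
    · intro x hx
      have hm := (fst_spec π (stc L (P x)) (hrow x).ne).1
      have hp := hsupp π x
      have hp0 : 0 < P x (w π x) := lt_of_le_of_ne (hP0 _ _) (Ne.symm hp)
      have hq := hPQ j x (w π x) hx hp
      have hL0 : (0 : ℝ) ≤ L := Nat.cast_nonneg L
      have hmem : fst π (stc L (P x)) (hrow x).ne ∈
          stc L fun v => 2 ^ (lvl (P x (w π x)) (Q j (g j x) (w π x))) * Q j (g j x) v := by
        unfold stc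
        unfold stc at hm
        rw [Finset.mem_filter] at hm ⊢
        refine ⟨mem_univ _, lt_of_lt_of_le hm.2 ?_⟩
        apply Nat.ceil_mono
        exact mul_le_mul_of_nonneg_left (lvl_spec hp0 hq) hL0
      exact (code_log (hNl j x (w π x)) hmem).1
    · rw [← Finset.sum_neg_distrib]
      refine Finset.sum_congr rfl fun x _ => ?_
      ring
  have h2 : ∑ j, CH μ (w π) (g j) + ∑ x, μ x * ψ x (w π x) ≤ T π := by
    rw [hT]
    simp only
    have := Finset.sum_le_sum h1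
    linarith
  refine (h2.trans hπ).trans ?_
  rw [hT, av_add, av_sum]
  have h3 : ∀ j ∈ (univ : Finset J), av (fun π : Ord (V × Fin L) => ∑ x, μ x * (-Real.logb 2 (code N π (Q j (g j x)) (w π x)))) ≤
      6 * ∑ x, μ x * ∑ v, P x v * (Real.logb 2 (P x v) - Real.logb 2 (Q j (g j x) v)) + 30 := by
    intro j _
    rw [av_sum]
    have h4 : ∀ x ∈ (univ : Finset Ω), av (fun π : Ord (V × Fin L) => μ x * (-Real.logb 2 (code N π (Q j (g j x)) (w π x)))) ≤
        μ x * (6 * ∑ v, P x v * (Real.logb 2 (P x v) - Real.logb 2 (Q j (g j x) v)) + 30) := by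
      intro x _
      rw [av_mul]
      by_cases hx : μ x = 0
      · rw [hx, zero_mul, zero_mul]
      · apply mul_le_mul_of_nonneg_left _ (hμ x)
        exact (hrow x).bits (hQ0 j _) (hQ1 j _) (fun v hv => hPQ j x v hx hv) (fun v _ => hNl j x v)
    refine (Finset.sum_le_sum h4).trans (le_of_eq ?_)
    have h5 : ∀ x ∈ (univ : Finset Ω), μ x * (6 * ∑ v, P x v * (Real.logb 2 (P x v) - Real.logb 2 (Q j (g j x) v)) + 30) =
        6 * (μ x * ∑ v, P x v * (Real.logb 2 (P x v) - Real.logb 2 (Q j (g j x) v))) + 30 * μ x := by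
      intro x _
      ring
    rw [Finset.sum_congr rfl h5, Finset.sum_add_distrib, ← Finset.mul_sum, ← Finset.mul_sum, hμ1, mul_one]
  have h4 : av (fun π : Ord (V × Fin L) => ∑ x, μ x * ψ x (w π x)) ≤ 2 * ∑ x, μ x * ∑ v, P x v * ψ x v := by
    rw [av_sum, Finset.mul_sum]
    refine Finset.sum_le_sum fun x _ => ?_
    rw [av_mul]
    have h5 : av (fun π : Ord (V × Fin L) => ψ x (w π x)) ≤ 2 * ∑ v, P x v * ψ x v := by
      rw [hw]
      simp only
      rw [av_fst_fun (hrow x).ne (fun a => ψ x a.1)]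
      exact (hrow x).avg (hψ x)
    have := mul_le_mul_of_nonneg_left h5 (hμ x)
    linarith
  have h5 := Finset.sum_le_sum h3
  linarith

end

end Pool.Agent.Helper33.LIT
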