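import Pool.Agent.Helper33.LIT.Fin
import Pool.Agent.Helper81.MT.Bas

/-! LITERAL LABELS, part 3: finite labels. -/

set_option autoImplicit false

namespace Pool.Agent.Helper33.LIT

open Finset Pool.Agent.Helper69.RK Pool.Agent.Helper31.EC Pool.Agent.Helper40.EL

noncomputable section

/-! ### conditional probabilities -/

section cpk
variable {Ω α γ : Type} [Fintype Ω] (μ : Ω → ℝ) (f : Ω → α) (g : Ω → γ)

open Classical in
/-- mass of `g = c` -/
def mg (c : γ) : ℝ := ∑ ω, if g ω = c then μ ω else 0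

open Classical in
/-- conditional probability of `f = b` given `g = c` -/
def cpk (c : γ) (b : α) : ℝ := (∑ ω, if g ω = c ∧ f ω = b then μ ω else 0) / mg μ g c

variable {μ f g}

theorem mg_nonneg (hμ : ∀ ω, 0 ≤ μ ω) (c : γ) : 0 ≤ mg μ g c :=
  Finset.sum_nonneg fun ω _ => by split_ifs; exacts [hμ ω, le_rfl]

theorem mg_pos (hμ : ∀ ω, 0 ≤ μ ω) {ω : Ω} (h : μ ω ≠ 0) : 0 < mg μ g (g ω) := by
  refine Finset.sum_pos' (fun ω _ => by split_ifs; exacts [hμ ω, le_rfl]) ⟨ω, mem_univ _, ?_⟩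
  rw [if_pos rfl]
  exact lt_of_le_of_ne (hμ ω) (Ne.symm h)

theorem cpk_nonneg (hμ : ∀ ω, 0 ≤ μ ω) (c : γ) (b : α) : 0 ≤ cpk μ f g c b :=
  div_nonneg (Finset.sum_nonneg fun ω _ => by split_ifs; exacts [hμ ω, le_rfl]) (mg_nonneg hμ c)

theorem cpk_pos (hμ : ∀ ω, 0 ≤ μ ω) {ω : Ω} (h : μ ω ≠ 0) : 0 < cpk μ f g (g ω) (f ω) := by
  apply div_pos _ (mg_pos hμ h)
  refine Finset.sum_pos' (fun ω _ => by split_ifs; exacts [hμ ω, le_rfl]) ⟨ω, mem_univ _, ?_⟩
  rw [if_pos ⟨rfl, rfl⟩]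
  exact lt_of_le_of_ne (hμ ω) (Ne.symm h)

open Classical in
/-- sums against conditional probabilities -/
theorem sum_cpk [Fintype α] (hμ : ∀ ω, 0 ≤ μ ω) (c : γ) (φ : α → ℝ) :
    mg μ g c * ∑ b, cpk μ f g c b * φ b = ∑ ω, if g ω = c then μ ω * φ (f ω) else 0 := by
  by_cases h0 : mg μ g c = 0
  · rw [h0, zero_mul]
    symm
    apply Finset.sum_eq_zero
    intro ω _
    by_cases h1 : g ω = c
    · have h2 : μ ω = 0 := by
        by_contra h3
        have := mg_pos (g := g) hμ h3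
        rw [h1, h0] at this
        exact lt_irrefl _ this
      rw [if_pos h1, h2, zero_mul]
    · rw [if_neg h1]
  · have h1 : ∀ b ∈ (univ : Finset α), mg μ g c * (cpk μ f g c b * φ b) =
        ∑ ω, if g ω = c ∧ f ω = b then μ ω * φ b else 0 := by
      intro b _
      have h2 : mg μ g c * (cpk μ f g c b * φ b) = (∑ ω, if g ω = c ∧ f ω = b then μ ω else 0) * φ b := by
        unfold cpk
        field_simp
      rw [h2, Finset.sum_mul]
      refine Finset.sum_congr rfl fun ω _ => ?_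
      split_ifs
      · rfl
      · rw [zero_mul]
    rw [Finset.mul_sum, Finset.sum_congr rfl h1, Finset.sum_comm]
    refine Finset.sum_congr rfl fun ω _ => ?_
    by_cases h3 : g ω = c
    · rw [if_pos h3, Finset.sum_eq_single (f ω)]
      · rw [if_pos ⟨h3, rfl⟩]
      · intro b _ hb
        rw [if_neg (fun h => hb h.2.symm)]
      · intro h
        exact absurd (mem_univ _) h
    · rw [if_neg h3]
      apply Finset.sum_eq_zero
      intro b _
      rw [if_neg (fun h => h3 h.1)]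

theorem cpk_sum [Fintype α] (hμ : ∀ ω, 0 ≤ μ ω) {c : γ} (h0 : mg μ g c ≠ 0) : ∑ b, cpk μ f g c b = 1 := by
  classical
  have h1 := sum_cpk (f := f) (g := g) hμ c (fun _ => 1)
  simp only [mul_one] at h1
  have h2 : (∑ ω, if g ω = c then μ ω else 0) = mg μ g c := by
    unfold mg
    refine Finset.sum_congr rfl fun ω _ => ?_
    split_ifs <;> rfl
  rw [h2] at h1
  have h3 : mg μ g c * ∑ b, cpk μ f g c b = mg μ g c * 1 := by rw [h1, mul_one]
  exact mul_left_cancel₀ h0 h3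

theorem cpk_sum_le [Fintype α] (hμ : ∀ ω, 0 ≤ μ ω) (c : γ) : ∑ b, cpk μ f g c b ≤ 1 := by
  by_cases h0 : mg μ g c = 0
  · have h1 : ∀ b ∈ (univ : Finset α), cpk μ f g c b = 0 := by
      intro b _
      unfold cpk
      rw [h0, div_zero]
    rw [Finset.sum_congr rfl h1]
    simp
  · exact (cpk_sum hμ h0).le

/-- conditional entropy -/
theorem CH_cpk (hμ : ∀ ω, 0 ≤ μ ω) : CH μ f g = -∑ ω, μ ω * Real.logb 2 (cpk μ f g (g ω) (f ω)) := by
  unfold CH
  rw [← Finset.sum_neg_distrib]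
  refine Finset.sum_congr rfl fun ω _ => ?_
  by_cases h0 : μ ω = 0
  · rw [h0, zero_mul, zero_mul, neg_zero]
  · have h1 : pr μ g ω = mg μ g (g ω) := rfl
    have h2 : cpk μ f g (g ω) (f ω) = pr μ (fun ω' => (f ω', g ω')) ω / pr μ g ω := by
      rw [h1]
      unfold cpk pr
      congr 1
      refine Finset.sum_congr rfl fun ω' _ => ?_
      by_cases h3 : g ω' = g ω ∧ f ω' = f ω
      · rw [if_pos h3, if_pos (Prod.ext h3.2 h3.1)]
      · rw [if_neg h3, if_neg (fun h => h3 ⟨congrArg Prod.snd h, congrArg Prod.fst h⟩)]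
    rw [h2, Real.logb_div (e3_pr_pos μ _ hμ ω h0).ne' (e3_pr_pos μ g hμ ω h0).ne']
    ring

end cpk

/-! ### a finite label and the kernel of its values -/

section lab
variable {F : FSp} (l : FLab F)

instance : Fintype (Quotient l.V) := Fintype.ofFinite _

/-- the value of the label -/
def mk (τ : l.T.Ω) : Quotient l.V := Quotient.mk l.V τ

theorem mg_law (x : F.Ω) : mg l.T.μ l.p.π x = F.μ x := by
  rw [← l.p.law, push_ind]
  unfold mg
  refine Finset.sum_congr rfl fun ω _ => ?_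
  by_cases h : l.p.π ω = x
  · rw [if_pos h, e1_ind_pos h, one_mul]
  · rw [if_neg h, e1_ind_neg h, zero_mul]

theorem exists_T : Nonempty l.T.Ω := by
  by_contra hc
  rw [not_nonempty_iff] at hc
  have h1 := l.T.ms
  unfold mass at h1
  rw [Finset.univ_eq_empty, Finset.sum_empty] at h1
  exact zero_ne_one h1

open Classical in
/-- the law of the value of the label given the point -/
def kr (x : F.Ω) (v : Quotient l.V) : ℝ :=
  if F.μ x = 0 then (if v = mk l (exists_T l).some then 1 else 0) else cpk l.T.μ (mk l) l.p.π x v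

theorem kr_nonneg (x : F.Ω) (v : Quotient l.V) : 0 ≤ kr l x v := by
  unfold kr
  split_ifs
  · exact zero_le_one
  · exact le_rfl
  · exact cpk_nonneg l.T.nn _ _

theorem kr_sum (x : F.Ω) : ∑ v, kr l x v = 1 := by
  classical
  by_cases h : F.μ x = 0
  · have h1 : ∀ v, kr l x v = if v = mk l (exists_T l).some then 1 else 0 := by
      intro v
      unfold kr
      rw [if_pos h]
    rw [Finset.sum_congr rfl (fun v _ => h1 v), Finset.sum_ite_eq' univ _ (fun _ => (1 : ℝ)), if_pos (mem_univ _)]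
  · have h1 : ∀ v, kr l x v = cpk l.T.μ (mk l) l.p.π x v := by
      intro v
      unfold kr
      rw [if_neg h]
    rw [Finset.sum_congr rfl (fun v _ => h1 v)]
    apply cpk_sum l.T.nn
    rw [mg_law]
    exact h

theorem kr_eq {x : F.Ω} (h : F.μ x ≠ 0) (v : Quotient l.V) : kr l x v = cpk l.T.μ (mk l) l.p.π x v := by
  unfold kr
  rw [if_neg h]

open Classical in
theorem kr_fib (x : F.Ω) (φ : Quotient l.V → ℝ) :
    F.μ x * ∑ v, kr l x v * φ v = ∑ τ, if l.p.π τ = x then l.T.μ τ * φ (mk l τ) else 0 := by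
  by_cases h : F.μ x = 0
  · rw [h, zero_mul]
    symm
    apply Finset.sum_eq_zero
    intro τ _
    by_cases h1 : l.p.π τ = x
    · have h2 : l.T.μ τ = 0 := by
        by_contra h3
        exact l.p.supp τ h3 (h1 ▸ h)
      rw [if_pos h1, h2, zero_mul]
    · rw [if_neg h1]
  · have h1 := sum_cpk (f := mk l) (g := l.p.π) l.T.nn x φ
    rw [mg_law] at h1
    rw [← h1]
    congr 1
    exact Finset.sum_congr rfl fun v _ => by rw [kr_eq l h]

/-- expectations of functions of the point and the value -/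
theorem kr_push (φ : F.Ω → Quotient l.V → ℝ) :
    ∑ x, F.μ x * ∑ v, kr l x v * φ x v = ∑ τ, l.T.μ τ * φ (l.p.π τ) (mk l τ) := by
  classical
  rw [Finset.sum_congr rfl (fun x _ => kr_fib l x (φ x)), Finset.sum_comm]
  refine Finset.sum_congr rfl fun τ _ => ?_
  rw [Finset.sum_ite_eq univ (l.p.π τ) (fun x => l.T.μ τ * φ x (mk l τ)), if_pos (mem_univ _)]

/-- a value has positive probability at the point: it is taken in the fibre -/
theorem kr_ne {x : F.Ω} (h : F.μ x ≠ 0) {v : Quotient l.V} (hv : kr l x v ≠ 0) :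
    ∃ τ, l.p.π τ = x ∧ mk l τ = v ∧ l.T.μ τ ≠ 0 := by
  classical
  by_contra hc
  push Not at hc
  apply hv
  rw [kr_eq l h]
  unfold cpk
  rw [Finset.sum_eq_zero, zero_div]
  intro τ _
  split_ifs with h1
  · exact hc τ h1.1 h1.2
  · rfl

/-! ### leaks as sums -/

/-- a condition together with the base -/
def cg (A : Setoid F.Ω) (x : F.Ω) : Quotient (A ⊓ F.Z) := Quotient.mk _ x

theorem h_cond (A : Setoid F.Ω) : h l.v (l.p.map (fc A)) = CH l.T.μ (mk l) (fun τ => cg A (l.p.π τ)) := by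
  have h1 : h l.v (l.p.map (fc A)) = l.T.e l.V (Setoid.comap l.p.π A ⊓ l.T.Z) := h_fc _ _
  rw [h1]
  apply l.T.e_congr
  · intro ω ω' _ _
    exact (Quotient.eq (r := l.V)).symm
  · intro ω ω' h1 h2
    unfold cg
    rw [Quotient.eq (r := A ⊓ F.Z)]
    exact and_congr Iff.rfl (l.p.hZ ω' ω h2 h1)

theorem h_top : h l.v l.p.top = CH l.T.μ (mk l) l.p.π := by
  have h1 : h l.v l.p.top = l.T.e l.V (Setoid.ker l.p.π ⊓ l.T.Z) := h_fc _ _
  rw [h1]
  apply l.T.e_congr
  · intro ω ω' _ _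
    exact (Quotient.eq (r := l.V)).symm
  · intro ω ω' h1 h2
    constructor
    · intro h3
      exact h3.1
    · intro h3
      refine ⟨h3, ?_⟩
      rw [l.p.hZ ω' ω h2 h1, h3]

/-- the leak as a relative entropy -/
theorem leak_sum (A : Setoid F.Ω) : l.leak (fc A) = ∑ x, F.μ x * ∑ v, kr l x v *
    (Real.logb 2 (kr l x v) - Real.logb 2 (cpk l.T.μ (mk l) (fun τ => cg A (l.p.π τ)) (cg A x) v)) := by
  have h1 : l.leak (fc A) = h l.v (l.p.map (fc A)) - h l.v l.p.top := by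
    unfold FLab.leak
    rw [I_eq, sup_eq_left.mpr (l.p.map_le_top _)]
  rw [h1, h_cond, h_top, CH_cpk l.T.nn, CH_cpk l.T.nn, kr_push l (fun x v => Real.logb 2 (kr l x v) -
    Real.logb 2 (cpk l.T.μ (mk l) (fun τ => cg A (l.p.π τ)) (cg A x) v)), sub_neg_eq_add, neg_add_eq_sub,
    ← Finset.sum_sub_distrib]
  refine Finset.sum_congr rfl fun τ _ => ?_
  by_cases h0 : l.T.μ τ = 0
  · rw [h0, zero_mul, zero_mul, zero_mul, sub_zero]
  · rw [kr_eq l (l.p.supp τ h0)]
    ring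

/-! ### two copies of the label -/

/-- the base -/
def zq (x : F.Ω) : Quotient F.Z := Quotient.mk _ x

/-- the kernel: the second copy given the first one and the base -/
def thk (c : Quotient l.V × Quotient F.Z) (v : Quotient l.V) : ℝ :=
  cpk (l.am l).sp.μ (fun w => mk l w.2) (fun w => (mk l w.1, zq (l.p.π w.1))) c v

theorem thk_nonneg (c : Quotient l.V × Quotient F.Z) (v : Quotient l.V) : 0 ≤ thk l c v :=
  cpk_nonneg (l.am l).sp.nn _ _

theorem am_mu (τ τ' : l.T.Ω) (h : l.p.π τ = l.p.π τ') :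
    (l.am l).sp.μ (τ, τ') = l.T.μ τ * l.T.μ τ' / F.μ (l.p.π τ) := by
  have h1 : (l.am l).sp.μ (τ, τ') = e1_ind (l.p.π τ = l.p.π τ') *
    (l.T.μ τ * l.T.μ τ' / ms l.T.μ l.p.π (l.p.π τ)) := rfl
  have h2 : ms l.T.μ l.p.π (l.p.π τ) = F.μ (l.p.π τ) := by
    rw [← mg_law l]
    unfold ms mg
    refine Finset.sum_congr rfl fun ω _ => ?_
    by_cases h : l.p.π ω = l.p.π τ
    · rw [if_pos h, e1_ind_pos h, one_mul]
    · rw [if_neg h, e1_ind_neg h, zero_mul]
  rw [h1, h2, e1_ind_pos h, one_mul]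

theorem am_mu0 (τ τ' : l.T.Ω) (h : ¬ l.p.π τ = l.p.π τ') : (l.am l).sp.μ (τ, τ') = 0 := by
  have h1 : (l.am l).sp.μ (τ, τ') = e1_ind (l.p.π τ = l.p.π τ') *
    (l.T.μ τ * l.T.μ τ' / ms l.T.μ l.p.π (l.p.π τ)) := rfl
  rw [h1, e1_ind_neg h, zero_mul]

theorem thk_pos {x : F.Ω} (hx : F.μ x ≠ 0) {v₀ v : Quotient l.V} (h0 : kr l x v₀ ≠ 0) (h1 : kr l x v ≠ 0) :
    0 < thk l (v₀, zq x) v := by
  obtain ⟨τ, a1, a2, a3⟩ := kr_ne l hx h0
  obtain ⟨τ', b1, b2, b3⟩ := kr_ne l hx h1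
  have h2 : (l.am l).sp.μ (τ, τ') ≠ 0 := by
    rw [am_mu l τ τ' (a1.trans b1.symm), a1]
    exact div_ne_zero (mul_ne_zero a3 b3) hx
  have h3 := cpk_pos (f := fun w : l.T.Ω × l.T.Ω => mk l w.2)
    (g := fun w : l.T.Ω × l.T.Ω => (mk l w.1, zq (l.p.π w.1))) (l.am l).sp.nn h2
  unfold thk
  simp only at h3
  rw [a1, a2, b2] at h3
  exact h3

/-- expectations over the two copies -/
theorem am_push (φ : l.T.Ω → Quotient l.V → ℝ) :
    ∑ w : l.T.Ω × l.T.Ω, (l.am l).sp.μ w * φ w.1 (mk l w.2) = ∑ τ, l.T.μ τ * ∑ v, kr l (l.p.π τ) v * φ τ v := by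
  classical
  rw [Fintype.sum_prod_type]
  refine Finset.sum_congr rfl fun τ _ => ?_
  by_cases h0 : l.T.μ τ = 0
  · rw [h0, zero_mul]
    apply Finset.sum_eq_zero
    intro τ' _
    by_cases h1 : l.p.π τ = l.p.π τ'
    · rw [am_mu l τ τ' h1, h0]
      simp
    · rw [am_mu0 l τ τ' h1, zero_mul]
  · have hx := l.p.supp τ h0
    have h1 := kr_fib l (l.p.π τ) (φ τ)
    have h2 : l.T.μ τ * ∑ v, kr l (l.p.π τ) v * φ τ v = l.T.μ τ / F.μ (l.p.π τ) *
        (F.μ (l.p.π τ) * ∑ v, kr l (l.p.π τ) v * φ τ v) := by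
      field_simp
    rw [h2, h1, Finset.mul_sum]
    refine Finset.sum_congr rfl fun τ' _ => ?_
    by_cases h3 : l.p.π τ' = l.p.π τ
    · rw [if_pos h3, am_mu l τ τ' h3.symm]
      ring
    · rw [if_neg h3, am_mu0 l τ τ' (fun h => h3 h.symm), zero_mul, mul_zero]

/-- the information of the second copy beyond the first one -/
def unv : ℝ := I ((l.am l).p2.map l.v) ((l.am l).p1.map l.p.top) ((l.am l).p1.map l.v)

theorem unv_eq : unv l = h ((l.am l).p2.map l.v) ((l.am l).p1.map l.v) - h l.v l.p.top := by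
  unfold unv
  rw [I_eq]
  have h1 : I ((l.am l).p1.map l.v) ((l.am l).p2.map l.v) ((l.am l).p1.map l.p.top) = 0 := l.am_indep l l.v l.v
  rw [I_comm, I_eq, sup_comm ((l.am l).p1.map l.v)] at h1
  have h2 : h ((l.am l).p2.map l.v) ((l.am l).p1.map l.p.top) = h l.v l.p.top := by
    rw [l.am_top l]
    exact (l.am l).p2.h_map _ _
  linarith

/-- relative entropy of the laws of the value given the point and given the first copy -/
def kp (x : F.Ω) (v₀ : Quotient l.V) : ℝ :=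
  ∑ v, kr l x v * (Real.logb 2 (kr l x v) - Real.logb 2 (thk l (v₀, zq x) v))

theorem kp_nonneg {x : F.Ω} (hx : F.μ x ≠ 0) {v₀ : Quotient l.V} (h0 : kr l x v₀ ≠ 0) : 0 ≤ kp l x v₀ := by
  have h1 := e3_gibbs (kr l x) (fun v => thk l (v₀, zq x) v / kr l x v) (kr_nonneg l x) (fun v hv =>
    div_pos (thk_pos l hx h0 hv) (lt_of_le_of_ne (kr_nonneg l x v) (Ne.symm hv))) (by
      rw [kr_sum]
      refine le_trans ?_ (cpk_sum_le (f := fun w : l.T.Ω × l.T.Ω => mk l w.2)
        (g := fun w : l.T.Ω × l.T.Ω => (mk l w.1, zq (l.p.π w.1))) (l.am l).sp.nn (v₀, zq x))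
      refine Finset.sum_le_sum fun v _ => ?_
      show kr l x v * (thk l (v₀, zq x) v / kr l x v) ≤ thk l (v₀, zq x) v
      by_cases hv : kr l x v = 0
      · rw [hv, zero_mul]
        exact thk_nonneg l _ _
      · rw [mul_div_cancel₀ _ hv])
  unfold kp
  have h2 : ∑ v, kr l x v * (Real.logb 2 (kr l x v) - Real.logb 2 (thk l (v₀, zq x) v)) =
      -∑ v, kr l x v * Real.logb 2 (thk l (v₀, zq x) v / kr l x v) := by
    rw [← Finset.sum_neg_distrib]
    refine Finset.sum_congr rfl fun v _ => ?_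
    by_cases hv : kr l x v = 0
    · rw [hv, zero_mul, zero_mul, neg_zero]
    · rw [Real.logb_div (thk_pos l hx h0 hv).ne' hv]
      ring
  rw [h2]
  linarith

theorem kp_sum : ∑ x, F.μ x * ∑ v, kr l x v * kp l x v = unv l := by
  have h1 : ∑ x, F.μ x * ∑ v, kr l x v * kp l x v = ∑ τ, l.T.μ τ * kp l (l.p.π τ) (mk l τ) := kr_push l (kp l)
  have h2 : ∑ τ, l.T.μ τ * kp l (l.p.π τ) (mk l τ) =
      ∑ τ, l.T.μ τ * ∑ v, kr l (l.p.π τ) v * Real.logb 2 (kr l (l.p.π τ) v) -
      ∑ τ, l.T.μ τ * ∑ v, kr l (l.p.π τ) v * Real.logb 2 (thk l (mk l τ, zq (l.p.π τ)) v) := by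
    rw [← Finset.sum_sub_distrib]
    refine Finset.sum_congr rfl fun τ _ => ?_
    rw [← mul_sub, ← Finset.sum_sub_distrib]
    unfold kp
    congr 1
    exact Finset.sum_congr rfl fun v _ => by ring
  have h3 : ∑ τ, l.T.μ τ * ∑ v, kr l (l.p.π τ) v * Real.logb 2 (kr l (l.p.π τ) v) = -h l.v l.p.top := by
    have e1 := kr_push l (fun x _ => ∑ v, kr l x v * Real.logb 2 (kr l x v))
    rw [← e1, h_top, CH_cpk l.T.nn, neg_neg]
    have e2 := kr_push l (fun x v => Real.logb 2 (kr l x v))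
    have e3 : ∑ τ, l.T.μ τ * Real.logb 2 (cpk l.T.μ (mk l) l.p.π (l.p.π τ) (mk l τ)) =
        ∑ τ, l.T.μ τ * Real.logb 2 (kr l (l.p.π τ) (mk l τ)) := by
      refine Finset.sum_congr rfl fun τ _ => ?_
      by_cases h0 : l.T.μ τ = 0
      · rw [h0, zero_mul, zero_mul]
      · rw [kr_eq l (l.p.supp τ h0)]
    rw [e3, ← e2]
    refine Finset.sum_congr rfl fun x _ => ?_
    rw [← Finset.sum_mul, kr_sum, one_mul]
  have h4 : ∑ τ, l.T.μ τ * ∑ v, kr l (l.p.π τ) v * Real.logb 2 (thk l (mk l τ, zq (l.p.π τ)) v) =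
      -h ((l.am l).p2.map l.v) ((l.am l).p1.map l.v) := by
    rw [← am_push l (fun τ v => Real.logb 2 (thk l (mk l τ, zq (l.p.π τ)) v))]
    have e1 : h ((l.am l).p2.map l.v) ((l.am l).p1.map l.v) = CH (l.am l).sp.μ (fun w => mk l w.2)
        (fun w => (mk l w.1, zq (l.p.π w.1))) := by
      have e2 : h ((l.am l).p2.map l.v) ((l.am l).p1.map l.v) = (l.am l).sp.e (Setoid.comap (l.am l).p2.π l.V)
        (Setoid.comap (l.am l).p1.π l.V ⊓ (l.am l).sp.Z) := h_fc _ _
      rw [e2]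
      apply (l.am l).sp.e_congr
      · intro w w' _ _
        exact (Quotient.eq (r := l.V)).symm
      · intro w w' h1 h2
        rw [Prod.mk.injEq]
        apply and_congr (Quotient.eq (r := l.V)).symm
        have e3 := l.p.hZ w'.1 w.1 ((l.am l).supp w' h2).2.1 ((l.am l).supp w h1).2.1
        unfold zq
        rw [Quotient.eq (r := F.Z)]
        exact e3
    rw [e1, CH_cpk (l.am l).sp.nn, neg_neg]
    rfl
  rw [h1, h2, h3, h4, unv_eq]
  ring

/-! ### means over the fibres -/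

open Classical in
/-- mean of `b` over the points of the fibre with the value `v` -/
def mb (b : l.T.Ω → ℝ) (x : F.Ω) (v : Quotient l.V) : ℝ :=
  (∑ τ, if l.p.π τ = x ∧ mk l τ = v then l.T.μ τ * b τ else 0) /
    (∑ τ, if l.p.π τ = x ∧ mk l τ = v then l.T.μ τ else 0)

theorem mb_nonneg {b : l.T.Ω → ℝ} (hb : ∀ τ, 0 ≤ b τ) (x : F.Ω) (v : Quotient l.V) : 0 ≤ mb l b x v :=
  div_nonneg (Finset.sum_nonneg fun τ _ => by split_ifs; exacts [mul_nonneg (l.T.nn τ) (hb τ), le_rfl])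
    (Finset.sum_nonneg fun τ _ => by split_ifs; exacts [l.T.nn τ, le_rfl])

theorem mb_sum (b : l.T.Ω → ℝ) : ∑ x, F.μ x * ∑ v, kr l x v * mb l b x v = ∑ τ, l.T.μ τ * b τ := by
  classical
  have h1 : ∀ x ∈ (univ : Finset F.Ω), F.μ x * ∑ v, kr l x v * mb l b x v =
      ∑ τ, if l.p.π τ = x then l.T.μ τ * b τ else 0 := by
    intro x _
    by_cases h0 : F.μ x = 0
    · rw [h0, zero_mul]
      symm
      apply Finset.sum_eq_zero
      intro τ _
      by_cases h1 : l.p.π τ = x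
      · have h2 : l.T.μ τ = 0 := by
          by_contra h3
          exact l.p.supp τ h3 (h1 ▸ h0)
        rw [if_pos h1, h2, zero_mul]
      · rw [if_neg h1]
    · have h2 : ∀ v ∈ (univ : Finset (Quotient l.V)), F.μ x * (kr l x v * mb l b x v) =
          ∑ τ, if l.p.π τ = x ∧ mk l τ = v then l.T.μ τ * b τ else 0 := by
        intro v _
        set N := ∑ τ, if l.p.π τ = x ∧ mk l τ = v then l.T.μ τ else 0 with hN
        have h3 : kr l x v = N / F.μ x := by
          rw [kr_eq l h0]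
          unfold cpk
          rw [mg_law, hN]
          congr 1
          refine Finset.sum_congr rfl fun τ _ => ?_
          by_cases h3 : l.p.π τ = x ∧ mk l τ = v
          · rw [if_pos h3, if_pos h3]
          · rw [if_neg h3, if_neg h3]
        by_cases hN0 : N = 0
        · rw [h3, hN0, zero_div, zero_mul, mul_zero]
          symm
          apply Finset.sum_eq_zero
          intro τ _
          by_cases h4 : l.p.π τ = x ∧ mk l τ = v
          · have h5 := (Finset.sum_eq_zero_iff_of_nonneg (fun τ _ => by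
              split_ifs; exacts [l.T.nn τ, le_rfl])).mp hN0 τ (mem_univ _)
            rw [if_pos h4] at h5
            rw [h5]
            simp
          · rw [if_neg h4]
        · rw [h3]
          unfold mb
          rw [← hN]
          field_simp
      rw [Finset.mul_sum, Finset.sum_congr rfl h2, Finset.sum_comm]
      refine Finset.sum_congr rfl fun τ _ => ?_
      by_cases h3 : l.p.π τ = x
      · rw [if_pos h3, Finset.sum_eq_single (mk l τ)]
        · rw [if_pos ⟨h3, rfl⟩]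
        · intro v _ hv
          rw [if_neg (fun h => hv h.2.symm)]
        · intro h
          exact absurd (mem_univ _) h
      · rw [if_neg h3]
        apply Finset.sum_eq_zero
        intro v _
        rw [if_neg (fun h => h3 h.1)]
  rw [Finset.sum_congr rfl h1, Finset.sum_comm]
  refine Finset.sum_congr rfl fun τ _ => ?_
  rw [Finset.sum_ite_eq univ (l.p.π τ) (fun _ => l.T.μ τ * b τ), if_pos (mem_univ _)]

/-- some point of the fibre is at most the mean -/
theorem exists_mb (b : l.T.Ω → ℝ) {x : F.Ω} (hx : F.μ x ≠ 0) {v : Quotient l.V} (hv : kr l x v ≠ 0) :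
    ∃ τ, l.p.π τ = x ∧ mk l τ = v ∧ l.T.μ τ ≠ 0 ∧ b τ ≤ mb l b x v := by
  classical
  by_contra hc
  push Not at hc
  obtain ⟨τ₀, a1, a2, a3⟩ := kr_ne l hx hv
  set N := ∑ τ, if l.p.π τ = x ∧ mk l τ = v then l.T.μ τ else 0 with hN
  have hNpos : 0 < N := by
    refine Finset.sum_pos' (fun τ _ => by split_ifs; exacts [l.T.nn τ, le_rfl]) ⟨τ₀, mem_univ _, ?_⟩
    rw [if_pos ⟨a1, a2⟩]
    exact lt_of_le_of_ne (l.T.nn _) (Ne.symm a3)
  have h1 : N * mb l b x v = ∑ τ, if l.p.π τ = x ∧ mk l τ = v then l.T.μ τ * b τ else 0 := by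
    unfold mb
    rw [← hN, mul_div_cancel₀ _ hNpos.ne']
  have h2 : N * mb l b x v < ∑ τ, if l.p.π τ = x ∧ mk l τ = v then l.T.μ τ * b τ else 0 := by
    rw [hN, Finset.sum_mul]
    apply Finset.sum_lt_sum
    · intro τ _
      by_cases h3 : l.p.π τ = x ∧ mk l τ = v
      · rw [if_pos h3, if_pos h3]
        by_cases h4 : l.T.μ τ = 0
        · rw [h4, zero_mul, zero_mul]
        · exact mul_le_mul_of_nonneg_left (hc τ h3.1 h3.2 h4).le (l.T.nn τ)
      · rw [if_neg h3, if_neg h3, zero_mul]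
    · refine ⟨τ₀, mem_univ _, ?_⟩
      rw [if_pos ⟨a1, a2⟩, if_pos ⟨a1, a2⟩]
      exact mul_lt_mul_of_pos_left (hc τ₀ a1 a2 a3) (lt_of_le_of_ne (l.T.nn _) (Ne.symm a3))
  linarith

/-! ### the finite theorem for labels -/

theorem h_sec {f : F.Ω → l.T.Ω} {w : F.Ω → Quotient l.V} (hw : ∀ x, F.μ x ≠ 0 → mk l (f x) = w x)
    (A : Setoid F.Ω) : h (fc (Setoid.comap f l.V)) (fc A) = CH F.μ w (cg A) := by
  rw [h_fc]
  apply F.e_congr
  · intro x x' h1 h2
    rw [← hw x h1, ← hw x' h2]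
    exact (Quotient.eq (r := l.V)).symm
  · intro x x' _ _
    exact (Quotient.eq (r := A ⊓ F.Z)).symm

/-- a label becomes a function of the point: leaks, loss of information and one bad function are controlled -/
theorem flit {J : Type} [Fintype J] (A : J → Setoid F.Ω) (b : l.T.Ω → ℝ) (hb : ∀ τ, 0 ≤ b τ) :
    ∃ f : F.Ω → l.T.Ω, (∀ x, F.μ x ≠ 0 → l.p.π (f x) = x ∧ l.T.μ (f x) ≠ 0) ∧
      ∑ j, h (fc (Setoid.comap f l.V)) (fc (A j)) + I l.v l.p.top (l.p.map (fc (Setoid.comap f l.V))) +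
        ∑ x, F.μ x * b (f x) ≤ ∑ j, (6 * l.leak (fc (A j)) + 30) + 2 * unv l + 2 * ∑ τ, l.T.μ τ * b τ := by
  classical
  obtain ⟨w, hw, hs⟩ := lit_fin F.μ F.nn F.ms (kr l) (kr_nonneg l) (kr_sum l) (fun j => cg (A j))
    (fun j c v => cpk l.T.μ (mk l) (fun τ => cg (A j) (l.p.π τ)) c v) (fun j c v => cpk_nonneg l.T.nn _ _)
    (fun j c => cpk_sum_le l.T.nn _) (by
      intro j x v hx hv
      obtain ⟨τ, a1, a2, a3⟩ := kr_ne l hx hv
      have h1 := cpk_pos (f := mk l) (g := fun τ => cg (A j) (l.p.π τ)) l.T.nn a3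
      rwa [a1, a2] at h1) (fun x v => max 0 (kp l x v) + mb l b x v)
    (fun x v => add_nonneg (le_max_left _ _) (mb_nonneg l hb x v))
  have h1 : ∀ x, F.μ x ≠ 0 → ∃ τ, l.p.π τ = x ∧ mk l τ = w x ∧ l.T.μ τ ≠ 0 ∧ b τ ≤ mb l b x (w x) :=
    fun x hx => exists_mb l b hx (hw x)
  set f : F.Ω → l.T.Ω := fun x => if hx : F.μ x ≠ 0 then (h1 x hx).choose else (exists_T l).some with hf
  have hf1 : ∀ x, F.μ x ≠ 0 → l.p.π (f x) = x ∧ mk l (f x) = w x ∧ l.T.μ (f x) ≠ 0 ∧ b (f x) ≤ mb l b x (w x) := by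
    intro x hx
    have h2 : f x = (h1 x hx).choose := by
      rw [hf]
      simp only
      rw [dif_pos hx]
    rw [h2]
    exact (h1 x hx).choose_spec
  refine ⟨f, fun x hx => ⟨(hf1 x hx).1, (hf1 x hx).2.2.1⟩, ?_⟩
  have hsec := fun B => h_sec l (fun x hx => (hf1 x hx).2.1) B
  have e1 : ∀ j ∈ (univ : Finset J), h (fc (Setoid.comap f l.V)) (fc (A j)) = CH F.μ w (cg (A j)) := fun j _ => hsec _
  rw [Finset.sum_congr rfl e1]
  -- the loss of information
  have e2 : I l.v l.p.top (l.p.map (fc (Setoid.comap f l.V))) ≤ ∑ x, F.μ x * max 0 (kp l x (w x)) := by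
    have a1 : I l.v l.p.top (l.p.map (fc (Setoid.comap f l.V))) =
        h l.v (l.p.map (fc (Setoid.comap f l.V))) - h l.v l.p.top := by
      rw [I_eq, sup_eq_left.mpr (l.p.map_le_top _)]
    have a2 : h l.v (l.p.map (fc (Setoid.comap f l.V))) =
        CH l.T.μ (mk l) (fun τ => (w (l.p.π τ), zq (l.p.π τ))) := by
      have a3 : h l.v (l.p.map (fc (Setoid.comap f l.V))) =
        l.T.e l.V (Setoid.comap l.p.π (Setoid.comap f l.V) ⊓ l.T.Z) := h_fc _ _
      rw [a3]
      apply l.T.e_congr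
      · intro τ τ' _ _
        exact (Quotient.eq (r := l.V)).symm
      · intro τ τ' c1 c2
        rw [Prod.mk.injEq, ← (hf1 _ (l.p.supp τ c1)).2.1, ← (hf1 _ (l.p.supp τ' c2)).2.1]
        apply and_congr (Quotient.eq (r := l.V)).symm
        unfold zq
        rw [Quotient.eq (r := F.Z)]
        exact l.p.hZ τ' τ c2 c1
    have a4 : h l.v (l.p.map (fc (Setoid.comap f l.V))) ≤
        -∑ τ, l.T.μ τ * Real.logb 2 (thk l (w (l.p.π τ), zq (l.p.π τ)) (mk l τ)) := by
      rw [a2]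
      apply Pool.Agent.Helper76.RL.gibbs_CH l.T.μ (mk l) (fun τ => (w (l.p.π τ), zq (l.p.π τ))) l.T.nn (thk l)
        (thk_nonneg l)
      · intro c S
        refine le_trans (Finset.sum_le_sum_of_subset_of_nonneg (Finset.subset_univ S)
          (fun v _ _ => thk_nonneg l c v)) (cpk_sum_le (l.am l).sp.nn c)
      · intro τ hτ
        have hx := l.p.supp τ hτ
        apply thk_pos l hx (hw _)
        rw [kr_eq l hx]
        exact (cpk_pos l.T.nn hτ).ne'
    have a5 : ∑ τ, l.T.μ τ * Real.logb 2 (thk l (w (l.p.π τ), zq (l.p.π τ)) (mk l τ)) =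
        ∑ x, F.μ x * ∑ v, kr l x v * Real.logb 2 (thk l (w x, zq x) v) :=
      (kr_push l (fun x v => Real.logb 2 (thk l (w x, zq x) v))).symm
    have a6 : h l.v l.p.top = -∑ x, F.μ x * ∑ v, kr l x v * Real.logb 2 (kr l x v) := by
      rw [h_top, CH_cpk l.T.nn, kr_push l (fun x v => Real.logb 2 (kr l x v))]
      congr 1
      refine Finset.sum_congr rfl fun τ _ => ?_
      by_cases h0 : l.T.μ τ = 0
      · rw [h0, zero_mul, zero_mul]
      · rw [kr_eq l (l.p.supp τ h0)]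
    rw [a1, a6]
    rw [a5] at a4
    have a7 : ∑ x, F.μ x * kp l x (w x) = ∑ x, F.μ x * ∑ v, kr l x v * Real.logb 2 (kr l x v) -
        ∑ x, F.μ x * ∑ v, kr l x v * Real.logb 2 (thk l (w x, zq x) v) := by
      rw [← Finset.sum_sub_distrib]
      refine Finset.sum_congr rfl fun x _ => ?_
      rw [← mul_sub, ← Finset.sum_sub_distrib]
      unfold kp
      congr 1
      exact Finset.sum_congr rfl fun v _ => by ring
    have a8 : ∑ x, F.μ x * kp l x (w x) ≤ ∑ x, F.μ x * max 0 (kp l x (w x)) :=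
      Finset.sum_le_sum fun x _ => mul_le_mul_of_nonneg_left (le_max_right _ _) (F.nn x)
    linarith
  have e3 : ∑ x, F.μ x * b (f x) ≤ ∑ x, F.μ x * mb l b x (w x) := by
    refine Finset.sum_le_sum fun x _ => ?_
    by_cases hx : F.μ x = 0
    · rw [hx, zero_mul, zero_mul]
    · exact mul_le_mul_of_nonneg_left (hf1 x hx).2.2.2 (F.nn x)
  have e4 : ∑ x, F.μ x * (max 0 (kp l x (w x)) + mb l b x (w x)) =
      ∑ x, F.μ x * max 0 (kp l x (w x)) + ∑ x, F.μ x * mb l b x (w x) := by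
    rw [← Finset.sum_add_distrib]
    exact Finset.sum_congr rfl fun x _ => by ring
  have e5 : ∑ x, F.μ x * ∑ v, kr l x v * (max 0 (kp l x v) + mb l b x v) = unv l + ∑ τ, l.T.μ τ * b τ := by
    rw [← kp_sum l, ← mb_sum l b, ← Finset.sum_add_distrib]
    refine Finset.sum_congr rfl fun x _ => ?_
    by_cases hx : F.μ x = 0
    · rw [hx, zero_mul, zero_mul, zero_mul, add_zero]
    · rw [← mul_add, ← Finset.sum_add_distrib]
      congr 1
      refine Finset.sum_congr rfl fun v _ => ?_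
      by_cases hv : kr l x v = 0
      · rw [hv, zero_mul, zero_mul, zero_mul, add_zero]
      · rw [max_eq_right (kp_nonneg l hx hv)]
        ring
  have e6 : ∀ j ∈ (univ : Finset J), 6 * ∑ x, F.μ x * ∑ v, kr l x v * (Real.logb 2 (kr l x v) -
      Real.logb 2 (cpk l.T.μ (mk l) (fun τ => cg (A j) (l.p.π τ)) (cg (A j) x) v)) + 30 =
      6 * l.leak (fc (A j)) + 30 := by
    intro j _
    rw [leak_sum]
  rw [Finset.sum_congr rfl e6, e5, e4] at hs
  linarith

end lab

end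

end Pool.Agent.Helper33.LIT
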