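import Pool.Agent.Helper33.LIT.Sec
import Pool.Agent.Helper36.AM.St

/-! LITERAL LABELS, part 5: systems of leaves; frames; homogeneous classes. -/

set_option autoImplicit false

namespace Pool.Agent.Helper33.LIT

open Finset Filter Topology Pool.Agent.Helper69.RK Pool.Agent.Helper31.EC Pool.Agent.Helper31.EC.Sp
open Pool.Agent.Helper40.EL Pool.Agent.Helper84.MT Pool.Agent.Helper36.AM

noncomputable section

variable {S : Sp} {M : ℕ} {E : ℕ → ℕ} {ι : Type}

/-- THEOREM LIT for systems of leaves -/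
theorem kap_sec [Finite ι] {s : MSys S M E ι} {c : ℝ} {l : Lab S} (hl : s.IsKap c l) :
    ∃ σ : Sec l, s.IsKap c (Lab.ofZ σ.Z) := by
  have : Finite (Option ι) := inferInstance
  exact exists_sec' hl (i₀ := none) (pcd_Bd s.Q)

/-- there is a literal label `kappa_c` -/
theorem exists_lit [Finite ι] (s : MSys S M E ι) (c : ℝ) : ∃ Z : ∀ k, Setoid (S.F k).Ω, s.IsKap c (Lab.ofZ Z) := by
  have : Countable ι := Finite.to_countable
  obtain ⟨σ, h⟩ := kap_sec (s.kap_isKap c)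
  exact ⟨σ.Z, h⟩

/-- exactly connected: the trivial partition is a label `kappa_0` -/
theorem kap_top {s : MSys S M E ι} {c : ℝ} (h : s.Con c) : s.IsKap c (Lab.ofZ fun _ => ⊤) := by
  have h1 : s.DMc c (Lab.ofZ fun _ => ⊤) := by
    apply (Lab.ofZ_DMf _).mpr
    intro i
    apply PLe_of_le
    intro k
    exact bot_le
  refine ⟨h1, fun l' hl' => ?_⟩
  have h2 : l'.info = 0 := ul_eq (h l' hl')
  rw [h2]
  apply const_le_ul (h1.ub (i := none) (pcd_Bd s.Q))
  exact Eventually.of_forall fun k => div_nonneg (FLab.info_nonneg _) (S.F k).pos.le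

/-- a variable of the label as a variable of the space -/
def Sec.vv {l : Lab S} (σ : Sec l) {m : ℕ} (X : l.sp.VV m) : (Lab.ofZ σ.Z).sp.VV m where
  v := fun k ω => X.v k (σ.f k ω)
  bd := by
    obtain ⟨K, hK, h⟩ := X.bd
    refine ⟨K, ?_, ?_⟩
    · refine ⟨hK.1, hK.2.congr fun k => ?_⟩
      have h1 : ((Lab.ofZ σ.Z).sp.F k).n = (S.F k).n := rfl
      have h2 : (l.sp.F k).n = (S.F k).n := (l k).hn
      rw [h1, ← h2]
    · filter_upwards [h] with k hk ω hω i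
      exact hk _ (σ.sp k ω hω) i

/-- FRAMES of a label give frames of the literal label -/
def Sec.frm {l : Lab S} (σ : Sec l) {Q : S.VV M} {La : Fin M → ℝ} (f : Frm Q l La) : Frm Q (Lab.ofZ σ.Z) La where
  X := σ.vv f.X
  P := fun k ω => f.P k (σ.f k ω)
  tri := fun k ω j i hi => f.tri k _ j i hi
  red := fun k ω j a ha h0 => f.red k _ j a ha h0
  fn := by
    filter_upwards [f.fn] with k hk ω ω' h1 h2 h3 h4
    have e1 := σ.pr k ω h1
    have e2 := σ.pr k ω' h2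
    refine hk _ _ (σ.sp k ω h1) (σ.sp k ω' h2) ?_ h4
    have h5 : (S.F k).Z ω ω' := h3
    have h6 := (l k).p.hZ (σ.f k ω) (σ.f k ω') (σ.sp k ω h1) (σ.sp k ω' h2)
    rw [e1, e2] at h6
    exact h6.mpr h5
  bd := by
    obtain ⟨K, hK, h⟩ := f.bd
    refine ⟨K, hK, ?_⟩
    filter_upwards [h] with k hk ω hω j a
    exact hk _ (σ.sp k ω hω) j a
  pt := by
    obtain ⟨K, hK, h⟩ := f.pt
    refine ⟨K, hK, ?_⟩
    filter_upwards [h] with k hk ω hω j
    have h1 := hk _ (σ.sp k ω hω) j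
    have h2 : (l.pj.vv Q).v k (σ.f k ω) j = Q.v k ω j := by
      show Q.v k ((l k).p.π (σ.f k ω)) j = Q.v k ω j
      rw [σ.pr k ω hω]
    rw [h2] at h1
    exact h1

/-- LITERAL BOXES of a homogeneous class: partitions of the space itself with frames and zooms in the class -/
theorem hom_lit {M : ℕ} {Cl : MCl (M + 1)} {g r : ℕ} {w : Fin (M + 1) → ℝ} {ρ : ℝ}
    {TT : ∀ S : Sp, MSys S (M + 1) (lin g) (Fin r) → Prop} (hT : Hom M Cl g r w ρ TT) {S : Sp}
    {s : MSys S (M + 1) (lin g) (Fin r)} (hs : TT S s) {c : ℝ} (h0 : 0 < c) (h1 : w (Fin.last M) * c < 1) :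
    ∃ (Z : ∀ k, Setoid (S.F k).Ω) (f : Frm s.Q (Lab.ofZ Z) (fun j => w j * c)), s.IsKap c (Lab.ofZ Z) ∧
      ∀ (e : ℝ) (he : 0 < e), w (Fin.last M) * c + e ≤ 1 →
        ∃ t : MSys ((Lab.ofZ Z).ovr e he) (M + 1) (lin g) (Fin r), Gzf s (Lab.ofZ Z) f c e he t ∧ TT _ t := by
  obtain ⟨l, f, hl⟩ := hT.box S s hs c h0 h1
  obtain ⟨σ, hσ⟩ := kap_sec hl
  exact ⟨σ.Z, σ.frm f, hσ, fun e he h2 => hT.zoom S s hs c h0 h1 _ (σ.frm f) hσ e he h2⟩

end

end Pool.Agent.Helper33.LIT
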