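import Pool.Agent.Helper33.LIT.Frm
import Pool.Agent.Helper49.KL.Lit
import Pool.Agent.Helper89.RAK.Zom

/-! K-LABELS: a maximal K-label of a window with a frame is a literal partition (a function of the resolution and of the
base) with a frame. -/

set_option autoImplicit false

namespace Pool.Agent.Helper33.LIT

open Finset Filter Topology Pool.Agent.Helper69.RK Pool.Agent.Helper31.EC Pool.Agent.Helper31.EC.Sp
open Pool.Agent.Helper40.EL Pool.Agent.Helper89.LX Pool.Agent.Helper84.MT Pool.Agent.Helper36.AM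
open Pool.Agent.Helper89.RAK (IsKapK KC)

noncomputable section

variable {S : Sp} {M : ℕ} {E : ℕ → ℕ} {ι : Type} {s : MSys S M E ι} {R : ∀ k, Setoid (S.F k).Ω} {c : ℝ} {l : Lab S}

/-- a maximal K-label has a literal section; one function with mean null on the label keeps mean null -/
theorem kapK_sec_bad [Finite ι] (hl : IsKapK s R c l) (b : ∀ k, (l k).T.Ω → ℝ) (hb0 : ∀ k τ, 0 ≤ b k τ)
    (hb : Tendsto (fun k => ∑ τ, (l k).T.μ τ * b k τ) UF (𝓝 0)) :
    ∃ σ : Sec l, (∀ᶠ k in UF, R k ⊓ (S.F k).Z ≤ σ.Z k) ∧ IsKapK s R c (Lab.ofZ σ.Z) ∧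
      Tendsto (fun k => ∑ x, (S.F k).μ x * b k (σ.f k x)) UF (𝓝 0) :=
  Pool.Agent.Helper49.KL.exists_secK hl (i₀ := none) (pcd_Bd s.Q) b hb0 hb

/-- a maximal K-label has a literal section -/
theorem kapK_sec [Finite ι] (hl : IsKapK s R c l) :
    ∃ σ : Sec l, (∀ᶠ k in UF, R k ⊓ (S.F k).Z ≤ σ.Z k) ∧ IsKapK s R c (Lab.ofZ σ.Z) := by
  obtain ⟨σ, h1, h2, -⟩ := kapK_sec_bad hl (fun _ _ => 0) (fun _ _ => le_rfl) (by
    simp only [mul_zero, Finset.sum_const_zero]
    exact tendsto_const_nhds)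
  exact ⟨σ, h1, h2⟩

/-- **literal maximal K-label with frame** -/
theorem kapK_frm [Finite ι] {La : Fin M → ℝ} (hl : IsKapK s R c l) (f : Frm s.Q l La) :
    ∃ (Z : ∀ k, Setoid (S.F k).Ω) (_ : Frm s.Q (Lab.ofZ Z) La), (∀ᶠ k in UF, R k ⊓ (S.F k).Z ≤ Z k) ∧
      IsKapK s R c (Lab.ofZ Z) := by
  obtain ⟨σ, h1, h2⟩ := kapK_sec hl
  exact ⟨σ.Z, σ.frm f, h1, h2⟩

open Classical in
/-- a partition of the space which is a function of `R` and of the base eventually can be taken so for all `k`: the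
label and the frame change only at finitely many (null) indices -/
theorem ev_all {Z : ∀ k, Setoid (S.F k).Ω} (h : ∀ᶠ k in UF, R k ⊓ (S.F k).Z ≤ Z k) :
    ∃ Z' : ∀ k, Setoid (S.F k).Ω, (∀ k, R k ⊓ (S.F k).Z ≤ Z' k) ∧ ∀ᶠ k in UF, Z' k = Z k := by
  refine ⟨fun k => if R k ⊓ (S.F k).Z ≤ Z k then Z k else ⊤, fun k => ?_, ?_⟩
  · by_cases hk : R k ⊓ (S.F k).Z ≤ Z k
    · beta_reduce
      rw [if_pos hk]
      exact hk
    · beta_reduce
      rw [if_neg hk]
      exact le_top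
  · filter_upwards [h] with k hk
    rw [if_pos hk]

end

end Pool.Agent.Helper33.LIT
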