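import Mathlib

/-! LITERAL LABELS, part 1: random orders of a finite set. -/

set_option autoImplicit false

namespace Pool.Agent.Helper33.LIT

open Finset

noncomputable section

variable {Λ : Type} [Fintype Λ] [DecidableEq Λ]

/-- orders of a finite set -/
abbrev Ord (Λ : Type) [Fintype Λ] : Type := Λ ≃ Fin (Fintype.card Λ)

theorem card_Ord : 0 < Fintype.card (Ord Λ) := Fintype.card_pos_iff.mpr ⟨Fintype.equivFin Λ⟩

/-- `a` is the first element of `G` -/
def Fst (π : Ord Λ) (G : Finset Λ) (a : Λ) : Prop := a ∈ G ∧ ∀ b ∈ G, π a ≤ π b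

omit [DecidableEq Λ] in
theorem Fst.ex (π : Ord Λ) {G : Finset Λ} (hG : G.Nonempty) : ∃ a, Fst π G a := by
  obtain ⟨a, ha, h⟩ := G.exists_min_image π hG
  exact ⟨a, ha, h⟩

omit [DecidableEq Λ] in
theorem Fst.uniq {π : Ord Λ} {G : Finset Λ} {a b : Λ} (ha : Fst π G a) (hb : Fst π G b) : a = b :=
  π.injective (le_antisymm (ha.2 b hb.1) (hb.2 a ha.1))

theorem Fst_swap {π : Ord Λ} {G : Finset Λ} {a b : Λ} (ha : a ∈ G) (hb : b ∈ G) :
    Fst ((Equiv.swap a b).trans π) G a ↔ Fst π G b := by
  have hs : ∀ c ∈ G, Equiv.swap a b c ∈ G := by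
    intro c hc
    by_cases h1 : c = a
    · rw [h1, Equiv.swap_apply_left]; exact hb
    · by_cases h2 : c = b
      · rw [h2, Equiv.swap_apply_right]; exact ha
      · rw [Equiv.swap_apply_of_ne_of_ne h1 h2]; exact hc
  constructor
  · intro h
    refine ⟨hb, fun c hc => ?_⟩
    have h1 := h.2 _ (hs c hc)
    simp only [Equiv.trans_apply, Equiv.swap_apply_left, Equiv.swap_apply_self] at h1
    exact h1
  · intro h
    refine ⟨ha, fun c hc => ?_⟩
    simp only [Equiv.trans_apply, Equiv.swap_apply_left]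
    exact h.2 _ (hs c hc)

/-- bijections of orders by a swap -/
def swO (a b : Λ) : Ord Λ ≃ Ord Λ where
  toFun π := (Equiv.swap a b).trans π
  invFun π := (Equiv.swap a b).trans π
  left_inv π := by
    ext x
    simp only [Equiv.trans_apply, Equiv.swap_apply_self]
  right_inv π := by
    ext x
    simp only [Equiv.trans_apply, Equiv.swap_apply_self]

open Classical in
theorem card_fst_eq {G : Finset Λ} {a b : Λ} (ha : a ∈ G) (hb : b ∈ G) :
    (univ.filter fun π : Ord Λ => Fst π G b).card = (univ.filter fun π : Ord Λ => Fst π G a).card := by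
  apply Finset.card_bij (fun π _ => swO a b π)
  · intro π hπ
    rw [mem_filter] at hπ ⊢
    exact ⟨mem_univ _, (Fst_swap ha hb).mpr hπ.2⟩
  · intro π _ π' _ h
    exact (swO a b).injective h
  · intro π hπ
    rw [mem_filter] at hπ
    refine ⟨swO a b π, ?_, (swO a b).left_inv π⟩
    rw [mem_filter]
    refine ⟨mem_univ _, ?_⟩
    rw [← Fst_swap ha hb]
    have h1 : (Equiv.swap a b).trans (swO a b π) = π := (swO a b).left_inv π
    rw [h1]
    exact hπ.2

open Classical in
/-- every element of `G` is the first one with the same probability -/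
theorem card_fst {G : Finset Λ} {a : Λ} (ha : a ∈ G) :
    (univ.filter fun π : Ord Λ => Fst π G a).card * G.card = Fintype.card (Ord Λ) := by
  have h1 : Fintype.card (Ord Λ) = ∑ b ∈ G, (univ.filter fun π : Ord Λ => Fst π G b).card := by
    rw [← Finset.card_biUnion]
    · rw [← Finset.card_univ]
      congr 1
      ext π
      simp only [mem_univ, mem_biUnion, mem_filter, true_and, true_iff]
      obtain ⟨b, hb⟩ := Fst.ex π ⟨a, ha⟩
      exact ⟨b, hb.1, hb⟩
    · intro b _ c _ hbc
      rw [Function.onFun, Finset.disjoint_left]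
      intro π h1 h2
      rw [mem_filter] at h1 h2
      exact hbc (h1.2.uniq h2.2)
  rw [h1, Finset.sum_congr rfl (fun b hb => card_fst_eq ha hb), Finset.sum_const, smul_eq_mul, mul_comm]

open Classical in
theorem card_fst2_eq {G : Finset Λ} {a b l : Λ} (ha : a ∈ G) (hb : b ∈ G) (hl : l ∉ G) :
    (univ.filter fun π : Ord Λ => Fst π G b ∧ π l < π b).card =
      (univ.filter fun π : Ord Λ => Fst π G a ∧ π l < π a).card := by
  have hla : l ≠ a := fun h => hl (h ▸ ha)
  have hlb : l ≠ b := fun h => hl (h ▸ hb)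
  have key : ∀ π : Ord Λ, (Fst (swO a b π) G a ∧ swO a b π l < swO a b π a) ↔ (Fst π G b ∧ π l < π b) := by
    intro π
    have h1 : swO a b π l = π l := by
      show π (Equiv.swap a b l) = π l
      rw [Equiv.swap_apply_of_ne_of_ne hla hlb]
    have h2 : swO a b π a = π b := by
      show π (Equiv.swap a b a) = π b
      rw [Equiv.swap_apply_left]
    rw [h1, h2]
    exact and_congr (Fst_swap ha hb) Iff.rfl
  apply Finset.card_bij (fun π _ => swO a b π)
  · intro π hπ
    rw [mem_filter] at hπ ⊢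
    exact ⟨mem_univ _, (key π).mpr hπ.2⟩
  · intro π _ π' _ h
    exact (swO a b).injective h
  · intro π hπ
    rw [mem_filter] at hπ
    refine ⟨swO a b π, ?_, (swO a b).left_inv π⟩
    rw [mem_filter]
    refine ⟨mem_univ _, ?_⟩
    rw [← key]
    have h1 : swO a b (swO a b π) = π := (swO a b).left_inv π
    rw [h1]
    exact hπ.2

open Classical in
/-- `l` comes first and `a` second -/
theorem card_fst2 {G : Finset Λ} {a l : Λ} (ha : a ∈ G) (hl : l ∉ G) :
    (univ.filter fun π : Ord Λ => Fst π G a ∧ π l < π a).card * (G.card * (G.card + 1)) = Fintype.card (Ord Λ) := by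
  have h1 : (univ.filter fun π : Ord Λ => Fst π (insert l G) l).card =
      ∑ b ∈ G, (univ.filter fun π : Ord Λ => Fst π G b ∧ π l < π b).card := by
    rw [← Finset.card_biUnion]
    · congr 1
      ext π
      simp only [mem_univ, mem_biUnion, mem_filter, true_and]
      constructor
      · intro h
        obtain ⟨b, hb⟩ := Fst.ex π ⟨a, ha⟩
        refine ⟨b, hb.1, hb, lt_of_le_of_ne (h.2 b (mem_insert_of_mem hb.1)) ?_⟩
        intro h2
        exact hl (π.injective h2 ▸ hb.1)
      · rintro ⟨b, hb, h2, h3⟩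
        refine ⟨mem_insert_self _ _, fun c hc => ?_⟩
        rw [mem_insert] at hc
        rcases hc with hc | hc
        · rw [hc]
        · exact h3.le.trans (h2.2 c hc)
    · intro b _ c _ hbc
      rw [Function.onFun, Finset.disjoint_left]
      intro π h1 h2
      rw [mem_filter] at h1 h2
      exact hbc (h1.2.1.uniq h2.2.1)
  have h2 := card_fst (G := insert l G) (mem_insert_self l G)
  rw [h1, Finset.sum_congr rfl (fun b hb => card_fst2_eq ha hb hl), Finset.sum_const, smul_eq_mul,
    Finset.card_insert_of_notMem hl] at h2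
  rw [← h2]
  ring

/-! ### averages -/

/-- the first element of `G` -/
def fst (π : Ord Λ) (G : Finset Λ) (hG : G.Nonempty) : Λ := (Fst.ex π hG).choose

omit [DecidableEq Λ] in
theorem fst_spec (π : Ord Λ) (G : Finset Λ) (hG : G.Nonempty) : Fst π G (fst π G hG) := (Fst.ex π hG).choose_spec

omit [DecidableEq Λ] in
theorem fst_eq {π : Ord Λ} {G : Finset Λ} {hG : G.Nonempty} {a : Λ} (h : Fst π G a) : fst π G hG = a :=
  (fst_spec π G hG).uniq h

/-- the average over all orders -/
def av (φ : Ord Λ → ℝ) : ℝ := (∑ π, φ π) / Fintype.card (Ord Λ)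

theorem av_add (φ ψ : Ord Λ → ℝ) : av (fun π => φ π + ψ π) = av φ + av ψ := by
  unfold av
  rw [Finset.sum_add_distrib, add_div]

theorem av_const (c : ℝ) : av (fun _ : Ord Λ => c) = c := by
  unfold av
  rw [Finset.sum_const, nsmul_eq_mul, card_univ]
  have : (Fintype.card (Ord Λ) : ℝ) ≠ 0 := by exact_mod_cast (card_Ord (Λ := Λ)).ne'
  field_simp

theorem av_mul (c : ℝ) (φ : Ord Λ → ℝ) : av (fun π => c * φ π) = c * av φ := by
  unfold av
  rw [← Finset.mul_sum, mul_div_assoc]

theorem av_sum {J : Type} (s : Finset J) (φ : J → Ord Λ → ℝ) : av (fun π => ∑ j ∈ s, φ j π) = ∑ j ∈ s, av (φ j) := by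
  unfold av
  rw [Finset.sum_comm, Finset.sum_div]

theorem av_mono {φ ψ : Ord Λ → ℝ} (h : ∀ π, φ π ≤ ψ π) : av φ ≤ av ψ := by
  unfold av
  exact div_le_div_of_nonneg_right (Finset.sum_le_sum fun π _ => h π) (Nat.cast_nonneg _)

/-- some order is at most the average -/
theorem exists_le_av (φ : Ord Λ → ℝ) : ∃ π, φ π ≤ av φ := by
  by_contra hc
  push Not at hc
  have h1 : ∑ _π : Ord Λ, av φ < ∑ π, φ π :=
    Finset.sum_lt_sum_of_nonempty ⟨Fintype.equivFin Λ, mem_univ _⟩ (fun π _ => hc π)
  rw [Finset.sum_const, nsmul_eq_mul, card_univ] at h1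
  unfold av at h1
  have h2 : (0 : ℝ) < Fintype.card (Ord Λ) := by exact_mod_cast card_Ord (Λ := Λ)
  rw [mul_div_cancel₀ _ h2.ne'] at h1
  exact lt_irrefl _ h1

open Classical in
theorem av_fst {G : Finset Λ} {a : Λ} (ha : a ∈ G) :
    av (fun π : Ord Λ => if Fst π G a then (1 : ℝ) else 0) = 1 / G.card := by
  unfold av
  rw [Finset.sum_boole]
  have h1 := card_fst ha
  have h2 : (0 : ℝ) < G.card := by exact_mod_cast Finset.card_pos.mpr ⟨a, ha⟩
  have h3 : (0 : ℝ) < Fintype.card (Ord Λ) := by exact_mod_cast card_Ord (Λ := Λ)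
  rw [div_eq_div_iff h3.ne' h2.ne', one_mul]
  exact_mod_cast h1

open Classical in
theorem av_fst2 {G : Finset Λ} {a l : Λ} (ha : a ∈ G) (hl : l ∉ G) :
    av (fun π : Ord Λ => if Fst π G a ∧ π l < π a then (1 : ℝ) else 0) = 1 / (G.card * (G.card + 1)) := by
  unfold av
  rw [Finset.sum_boole]
  have h1 := card_fst2 ha hl
  have h2 : (0 : ℝ) < (G.card : ℝ) * (G.card + 1) := by
    have : (0 : ℝ) < G.card := by exact_mod_cast Finset.card_pos.mpr ⟨a, ha⟩
    positivity
  have h3 : (0 : ℝ) < Fintype.card (Ord Λ) := by exact_mod_cast card_Ord (Λ := Λ)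
  rw [div_eq_div_iff h3.ne' h2.ne', one_mul]
  exact_mod_cast h1

open Classical in
/-- the average of a function of the first element and the order -/
theorem av_split {G : Finset Λ} (hG : G.Nonempty) (φ : Ord Λ → Λ → ℝ) :
    av (fun π => φ π (fst π G hG)) = ∑ a ∈ G, av (fun π => if Fst π G a then φ π a else 0) := by
  rw [← av_sum]
  congr 1
  funext π
  rw [Finset.sum_eq_single_of_mem (fst π G hG) (fst_spec π G hG).1]
  · rw [if_pos (fst_spec π G hG)]
  · intro b _ hb
    rw [if_neg (fun h => hb (h.uniq (fst_spec π G hG)))]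

theorem av_fst_fun {G : Finset Λ} (hG : G.Nonempty) (φ : Λ → ℝ) :
    av (fun π => φ (fst π G hG)) = ∑ a ∈ G, φ a / G.card := by
  classical
  rw [av_split hG (fun _ a => φ a)]
  refine Finset.sum_congr rfl fun a ha => ?_
  have h1 : (fun π : Ord Λ => if Fst π G a then φ a else 0) = fun π => φ a * (if Fst π G a then (1 : ℝ) else 0) := by
    funext π
    split_ifs
    · rw [mul_one]
    · rw [mul_zero]
  rw [h1, av_mul, av_fst ha]
  ring

/-- rank of `a` in `H` -/
def rk (π : Ord Λ) (H : Finset Λ) (a : Λ) : ℕ := (H.filter fun l => π l ≤ π a).card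

omit [DecidableEq Λ] in
theorem rk_pos {π : Ord Λ} {H : Finset Λ} {a : Λ} (ha : a ∈ H) : 0 < rk π H a :=
  Finset.card_pos.mpr ⟨a, Finset.mem_filter.mpr ⟨ha, le_rfl⟩⟩

omit [DecidableEq Λ] in
theorem rk_le {π : Ord Λ} {H : Finset Λ} {a : Λ} : rk π H a ≤ H.card := Finset.card_filter_le _ _

omit [DecidableEq Λ] in
theorem rk_lt {π : Ord Λ} {H : Finset Λ} {a b : Λ} (hb : b ∈ H) (hab : π a < π b) : rk π H a < rk π H b := by
  apply Finset.card_lt_card
  rw [Finset.ssubset_iff_of_subset]
  · exact ⟨b, Finset.mem_filter.mpr ⟨hb, le_rfl⟩, fun h => absurd (Finset.mem_filter.mp h).2 (not_le.mpr hab)⟩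
  · intro l hl
    rw [Finset.mem_filter] at hl ⊢
    exact ⟨hl.1, hl.2.trans hab.le⟩

omit [DecidableEq Λ] in
theorem rk_inj {π : Ord Λ} {H : Finset Λ} {a b : Λ} (ha : a ∈ H) (hb : b ∈ H) (h : rk π H a = rk π H b) : a = b := by
  rcases lt_trichotomy (π a) (π b) with h1 | h1 | h1
  · exact absurd h (rk_lt hb h1).ne
  · exact π.injective h1
  · exact absurd h (rk_lt ha h1).ne'

omit [DecidableEq Λ] in
/-- `Σ 1 / (r (r + 1)) ≤ 1` over the ranks -/
theorem sum_rk_le (π : Ord Λ) (H : Finset Λ) : ∑ l ∈ H, 1 / ((rk π H l : ℝ) * (rk π H l + 1)) ≤ 1 := by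
  have h1 : ∑ l ∈ H, 1 / ((rk π H l : ℝ) * (rk π H l + 1)) =
      ∑ r ∈ H.image (rk π H), 1 / ((r : ℝ) * (r + 1)) := by
    rw [Finset.sum_image]
    intro a ha b hb h
    exact rk_inj ha hb h
  have h2 : ∑ r ∈ H.image (rk π H), 1 / ((r : ℝ) * (r + 1)) ≤ ∑ r ∈ Finset.Icc 1 H.card, 1 / ((r : ℝ) * (r + 1)) := by
    apply Finset.sum_le_sum_of_subset_of_nonneg
    · intro r hr
      obtain ⟨a, ha, rfl⟩ := Finset.mem_image.mp hr
      exact Finset.mem_Icc.mpr ⟨rk_pos ha, rk_le⟩
    · intro r _ _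
      positivity
  have h3 : ∀ N : ℕ, ∑ r ∈ Finset.Icc 1 N, 1 / ((r : ℝ) * (r + 1)) = 1 - 1 / (N + 1) := by
    intro N
    induction N with
    | zero => simp
    | succ N ih =>
      rw [Finset.sum_Icc_succ_top (by omega), ih]
      have : (0 : ℝ) < N + 1 := by positivity
      push_cast
      field_simp
      ring
  rw [h1]
  refine h2.trans ?_
  rw [h3]
  have : (0 : ℝ) ≤ 1 / (H.card + 1) := by positivity
  linarith

open Classical in
/-- the mean rank of the first element of `G` in `H` -/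
theorem av_rk {G H : Finset Λ} {a : Λ} (ha : a ∈ G) :
    av (fun π : Ord Λ => if Fst π G a then (rk π H a : ℝ) else 0) ≤ (1 / G.card) * (1 + H.card / G.card) := by
  have hG : (0 : ℝ) < G.card := by exact_mod_cast Finset.card_pos.mpr ⟨a, ha⟩
  have h1 : ∀ π : Ord Λ, (if Fst π G a then (rk π H a : ℝ) else 0) ≤ (if Fst π G a then (1 : ℝ) else 0) +
      ∑ l ∈ H \ G, (if Fst π G a ∧ π l < π a then (1 : ℝ) else 0) := by
    intro π
    by_cases h : Fst π G a
    · rw [if_pos h, if_pos h, Finset.sum_boole]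
      have h2 : (H.filter fun l => π l ≤ π a) ⊆ insert a ((H \ G).filter fun l => Fst π G a ∧ π l < π a) := by
        intro l hl
        rw [Finset.mem_filter] at hl
        by_cases h3 : l = a
        · rw [h3]; exact mem_insert_self _ _
        · apply mem_insert_of_mem
          have h4 : π l < π a := lt_of_le_of_ne hl.2 (fun h5 => h3 (π.injective h5))
          rw [Finset.mem_filter, Finset.mem_sdiff]
          exact ⟨⟨hl.1, fun h5 => absurd (h.2 l h5) (not_le.mpr h4)⟩, h, h4⟩
      have h5 := (Finset.card_le_card h2).trans (Finset.card_insert_le _ _)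
      have h6 : (rk π H a : ℝ) ≤ (((H \ G).filter fun l => Fst π G a ∧ π l < π a).card : ℝ) + 1 := by exact_mod_cast h5
      linarith
    · rw [if_neg h, if_neg h, zero_add]
      exact Finset.sum_nonneg fun l _ => by split_ifs <;> norm_num
  refine (av_mono h1).trans ?_
  rw [av_add, av_sum, av_fst ha]
  have h2 : ∑ l ∈ H \ G, av (fun π : Ord Λ => if Fst π G a ∧ π l < π a then (1 : ℝ) else 0) ≤
      (H.card : ℝ) * (1 / (G.card * G.card)) := by
    have h3 : ∀ l ∈ H \ G, av (fun π : Ord Λ => if Fst π G a ∧ π l < π a then (1 : ℝ) else 0) ≤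
        1 / ((G.card : ℝ) * G.card) := by
      intro l hl
      rw [av_fst2 ha (Finset.mem_sdiff.mp hl).2]
      apply one_div_le_one_div_of_le (by positivity)
      nlinarith
    refine (Finset.sum_le_sum h3).trans ?_
    rw [Finset.sum_const, nsmul_eq_mul]
    apply mul_le_mul_of_nonneg_right _ (by positivity)
    exact_mod_cast Finset.card_le_card Finset.sdiff_subset
  have h3 : (1 / (G.card : ℝ)) * (1 + H.card / G.card) = 1 / G.card + (H.card : ℝ) * (1 / (G.card * G.card)) := by
    field_simp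
  rw [h3]
  linarith

end

end Pool.Agent.Helper33.LIT
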