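import Pool.Agent.Helper33.LIT.Flab
import Pool.Agent.Helper84.MT.Pul

/-! LITERAL LABELS, part 4: THEOREM LIT. A maximal label of a finite family of conditions can be replaced by a
partition of the space itself: the pull back of the label under a section of the projection. -/

set_option autoImplicit false

namespace Pool.Agent.Helper33.LIT

open Finset Filter Topology Pool.Agent.Helper69.RK Pool.Agent.Helper31.EC Pool.Agent.Helper40.EL

noncomputable section

variable {S : Sp} {l : Lab S} {ι : Type}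

/-- sections of the projection of a label, with values in the support -/
structure Sec (l : Lab S) where
  f : ∀ k, (S.F k).Ω → (l k).T.Ω
  pr : ∀ k x, (S.F k).μ x ≠ 0 → (l k).p.π (f k x) = x
  sp : ∀ k x, (S.F k).μ x ≠ 0 → (l k).T.μ (f k x) ≠ 0

/-- the pull back of the label under a section: a partition of the space itself -/
def Sec.Z (σ : Sec l) : ∀ k, Setoid (S.F k).Ω := fun k => Setoid.comap (σ.f k) (l k).V

theorem Nul_const (S : Sp) (c : ℝ) : Nul S (fun _ => c) := by
  unfold Nul
  exact S.lim.const_div_atTop c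

theorem Nul.finset_sum {J : Type} (s : Finset J) {f : J → ℕ → ℝ} (h : ∀ j ∈ s, Nul S (f j)) :
    Nul S (fun k => ∑ j ∈ s, f j k) := by
  classical
  induction s using Finset.induction_on with
  | empty =>
    simp only [Finset.sum_empty]
    exact Nul_zero S
  | insert a s ha ih =>
    have h1 : (fun k => ∑ j ∈ insert a s, f j k) = fun k => f a k + ∑ j ∈ s, f j k := by
      funext k
      rw [Finset.sum_insert ha]
    rw [h1]
    exact (h a (mem_insert_self _ _)).add (ih fun j hj => h j (mem_insert_of_mem hj))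

/-- the information of the partition -/
theorem ofZ_info (Z : ∀ k, Setoid (S.F k).Ω) (k : ℕ) : ((Lab.ofZ Z) k).info = H (fc (Z k)) := by
  have h1 : ((Lab.ofZ Z) k).info = ((Lab.ofZ Z) k).leak ⊥ := (FLab.leak_bot _).symm
  have h2 : ((Lab.ofZ Z) k).leak ⊥ = h (fc (Z k)) ⊥ := Lab.ofZ_leak Z (fun _ => ⊥) k
  rw [h1, h2, h_bot]

/-- the information of a label, when a function of the point is given -/
theorem info_le_ofZ (Z : ∀ k, Setoid (S.F k).Ω) (k : ℕ) : (l k).info ≤ ((Lab.ofZ Z) k).info +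
    I (l k).v (l k).p.top ((l k).p.map (fc (Z k))) := by
  rw [ofZ_info]
  have h1 : (l k).info ≤ I ((l k).v ⊔ (l k).p.map (fc (Z k))) (l k).p.top ⊥ :=
    I_mono_left (le_sup_left.trans le_sup_left)
  rw [sup_comm, I_chain, sup_bot_eq] at h1
  have h2 : I ((l k).p.map (fc (Z k))) (l k).p.top ⊥ ≤ H (fc (Z k)) := by
    refine (I_le_h_left _ _ _).trans ?_
    rw [h_bot, (l k).p.H_map]
  linarith

/-- THEOREM LIT: a maximal label of finitely many conditions is a partition of the space itself, the pull back under a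
section of the projection; a function with mean null on the label keeps mean null -/
theorem exists_sec [Finite ι] {A : ι → Part S} (hl : l.IsMaxf A) {i₀ : ι} (hA : (A i₀).Bd)
    (b : ∀ k, (l k).T.Ω → ℝ) (hb0 : ∀ k τ, 0 ≤ b k τ)
    (hb : Tendsto (fun k => ∑ τ, (l k).T.μ τ * b k τ) UF (𝓝 0)) :
    ∃ σ : Sec l, (Lab.ofZ σ.Z).IsMaxf A ∧ Tendsto (fun k => ∑ x, (S.F k).μ x * b k (σ.f k x)) UF (𝓝 0) := by
  classical
  have : Fintype ι := Fintype.ofFinite ι
  have hrep : ∀ i k, ∃ B : Setoid (S.F k).Ω, fc B = A i k := fun i k =>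
    fc_ind (p := fun x => ∃ B : Setoid (S.F k).Ω, fc B = x) (fun B => ⟨B, rfl⟩) (A i k)
  choose B hB using hrep
  have hn : ∀ k, 0 < (S.F k).n := fun k => (S.F k).pos
  have h1 := fun k => flit (l k) (fun i => B i k) (fun τ => (S.F k).n * b k τ)
    (fun τ => mul_nonneg (hn k).le (hb0 k τ))
  choose f hf hs using h1
  set Z : ∀ k, Setoid (S.F k).Ω := fun k => Setoid.comap (f k) (l k).V with hZ
  set E : ℕ → ℝ := fun k => ∑ j, (6 * (l k).leak (A j k) + 30) + 2 * unv (l k) +
    2 * ((S.F k).n * ∑ τ, (l k).T.μ τ * b k τ) with hE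
  have hs' : ∀ k, ∑ j, h (fc (Z k)) (A j k) + I (l k).v (l k).p.top ((l k).p.map (fc (Z k))) +
      (S.F k).n * ∑ x, (S.F k).μ x * b k (f k x) ≤ E k := by
    intro k
    have h2 := hs k
    have e1 : ∑ j, h (fc (Z k)) (fc (B j k)) = ∑ j, h (fc (Z k)) (A j k) :=
      Finset.sum_congr rfl fun j _ => by rw [hB]
    have e2 : ∑ j, (6 * (l k).leak (fc (B j k)) + 30) = ∑ j, (6 * (l k).leak (A j k) + 30) :=
      Finset.sum_congr rfl fun j _ => by rw [hB]
    have e3 : ∑ x, (S.F k).μ x * ((S.F k).n * b k (f k x)) = (S.F k).n * ∑ x, (S.F k).μ x * b k (f k x) := by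
      rw [Finset.mul_sum]
      exact Finset.sum_congr rfl fun x _ => by ring
    have e4 : ∑ τ, (l k).T.μ τ * ((S.F k).n * b k τ) = (S.F k).n * ∑ τ, (l k).T.μ τ * b k τ := by
      rw [Finset.mul_sum]
      exact Finset.sum_congr rfl fun τ _ => by ring
    rw [e2, e3, e4] at h2
    rw [← e1]
    exact h2
  have hEn : Nul S E := by
    have a1 : Nul S (fun k => ∑ j, (6 * (l k).leak (A j k) + 30)) :=
      Nul.finset_sum _ fun j _ => ((hl.1 j).const_mul 6).add (Nul_const S 30)
    have a2 : Nul S (fun k => 2 * unv (l k)) := (hl.univ hl.1 (i := i₀) hA).const_mul 2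
    have a3 : Nul S (fun k => 2 * ((S.F k).n * ∑ τ, (l k).T.μ τ * b k τ)) := by
      apply Nul.const_mul
      unfold Nul
      refine hb.congr fun k => ?_
      rw [mul_div_cancel_left₀ _ (hn k).ne']
    exact (a1.add a2).add a3
  have p1 : ∀ k, 0 ≤ ∑ j, h (fc (Z k)) (A j k) := fun k => Finset.sum_nonneg fun j _ => h_nonneg _ _
  have p2 : ∀ k, 0 ≤ I (l k).v (l k).p.top ((l k).p.map (fc (Z k))) := fun k => I_nonneg _ _ _
  have p3 : ∀ k, 0 ≤ (S.F k).n * ∑ x, (S.F k).μ x * b k (f k x) := fun k =>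
    mul_nonneg (hn k).le (Finset.sum_nonneg fun x _ => mul_nonneg ((S.F k).nn x) (hb0 k _))
  have hleak : ∀ i, PLe (fun k => fc (Z k)) (A i) := by
    intro i
    refine hEn.of_le (Eventually.of_forall fun k => h_nonneg _ _) (Eventually.of_forall fun k => ?_)
    have h3 := hs' k
    have h4 : h (fc (Z k)) (A i k) ≤ ∑ j, h (fc (Z k)) (A j k) :=
      Finset.single_le_sum (f := fun j => h (fc (Z k)) (A j k)) (fun j _ => h_nonneg _ _) (mem_univ i)
    linarith [p2 k, p3 k]
  have hDM : (Lab.ofZ Z).DMf A := (Lab.ofZ_DMf Z).mpr hleak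
  refine ⟨⟨f, fun k x hx => (hf k x hx).1, fun k x hx => (hf k x hx).2⟩, ⟨hDM, fun l' hl' => ?_⟩, ?_⟩
  · refine (hl.2 l' hl').trans ?_
    have u1 := hl.1.ub hA
    have u2 := hDM.ub hA
    have u3 : UB (fun k => E k / (S.F k).n) := UB_of_tendsto hEn
    have e1 : ul (fun k => ((Lab.ofZ Z) k).info / (S.F k).n + E k / (S.F k).n) = (Lab.ofZ Z).info := by
      rw [ul_add u2 u3]
      have : ul (fun k => E k / (S.F k).n) = 0 := ul_eq hEn
      rw [this, add_zero]
      rfl
    have e2 : l.info ≤ ul (fun k => ((Lab.ofZ Z) k).info / (S.F k).n + E k / (S.F k).n) := by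
      apply ul_mono u1 (u2.add u3)
      refine Eventually.of_forall fun k => ?_
      rw [← add_div]
      apply div_le_div_of_nonneg_right _ (hn k).le
      have h3 := info_le_ofZ (l := l) Z k
      have h4 := hs' k
      linarith [p1 k, p3 k]
    rw [e1] at e2
    exact e2
  · refine tendsto_of_tendsto_of_tendsto_of_le_of_le' tendsto_const_nhds hEn ?_ ?_
    · exact Eventually.of_forall fun k => Finset.sum_nonneg fun x _ => mul_nonneg ((S.F k).nn x) (hb0 k _)
    · refine Eventually.of_forall fun k => ?_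
      rw [le_div_iff₀ (hn k), mul_comm]
      have h4 := hs' k
      linarith [p1 k, p2 k]

/-- THEOREM LIT, without a function -/
theorem exists_sec' [Finite ι] {A : ι → Part S} (hl : l.IsMaxf A) {i₀ : ι} (hA : (A i₀).Bd) :
    ∃ σ : Sec l, (Lab.ofZ σ.Z).IsMaxf A := by
  obtain ⟨σ, h1, _⟩ := exists_sec hl hA (fun _ _ => 0) (fun _ _ => le_rfl) (by
    simp only [mul_zero, Finset.sum_const_zero]
    exact tendsto_const_nhds)
  exact ⟨σ, h1⟩

end

end Pool.Agent.Helper33.LIT
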